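import Pool.Agent.Lib.MP_859dd5_ag.Mg.G001

/-!
# Counting: generators of fields over which everything is algebraic are independent
-/

namespace UnrG

universe u v w

open Polynomial Finset
open scoped Classical

variable {𝔽 : Type w} [Field 𝔽] [Fintype 𝔽] (b : Base 𝔽)

variable {F L : Type u} [Field F] [Field L] [Algebra F L] {r n : ℕ}
  {t : Fin r → L} {a x : Fin (n + 2) → L}

private lemma C1_alg (h : DiagData b t (F := F) a x) {Ω : Type u} [Field Ω]
    [Algebra F Ω] [Algebra L Ω] [IsScalarTower F L Ω] [Algebra.IsAlgebraic L Ω]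
    (T : IntermediateField F Ω) (ht : ∀ i, IsAlgebraic T (algebraMap L Ω (t i)))
    (hx : ∀ i, IsAlgebraic T (algebraMap L Ω (x i))) : Algebra.IsAlgebraic T Ω := by
  let S : Set Ω := Set.range (fun i => algebraMap L Ω (t i)) ∪
    Set.range (fun i => algebraMap L Ω (x i))
  let M : IntermediateField T Ω := IntermediateField.adjoin T S
  have hM : Algebra.IsAlgebraic T M := by
    refine IntermediateField.isAlgebraic_adjoin ?_
    rintro _ (⟨i, rfl⟩ | ⟨i, rfl⟩)
    · exact (ht i).isIntegral
    · exact (hx i).isIntegral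
  have hL : ∀ z : L, algebraMap L Ω z ∈ M := by
    intro z
    let N : IntermediateField F L := (M.restrictScalars F).comap (IsScalarTower.toAlgHom F L Ω)
    have hle : IntermediateField.adjoin F (Set.range t ∪ Set.range x) ≤ N := by
      rw [IntermediateField.adjoin_le_iff]
      rintro _ (⟨i, rfl⟩ | ⟨i, rfl⟩)
      · exact IntermediateField.subset_adjoin T S (Or.inl ⟨i, rfl⟩)
      · exact IntermediateField.subset_adjoin T S (Or.inr ⟨i, rfl⟩)
    have hz : z ∈ IntermediateField.adjoin F (Set.range t ∪ Set.range x) := by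
      rw [h.gen]; trivial
    exact hle hz
  let φ : L →+* M := (algebraMap L Ω).codRestrict M hL
  have hΩ : Algebra.IsAlgebraic M Ω := by
    refine ⟨fun z => ?_⟩
    obtain ⟨q, hq0, hq⟩ := Algebra.IsAlgebraic.isAlgebraic (R := L) z
    refine ⟨q.map φ, (Polynomial.map_ne_zero_iff φ.injective).mpr hq0, ?_⟩
    rw [aeval_def, eval₂_map]
    have e : (algebraMap M Ω).comp φ = algebraMap L Ω := by
      ext z
      rfl
    rw [e, ← aeval_def, hq]
  exact Algebra.IsAlgebraic.trans T M Ω

/-- Proof: `L` has transcendence degree `r + n` over `F` (`h.ind` and `h.gen`, `h.rel`), so has the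
algebraic extension `Ω`. A generating family of `r + n` elements up to algebraic elements contains a
transcendence basis, which has `r + n` elements, so it is the whole family (see the proof of
`ratioField_purely` in `K/D5.lean`). -/
theorem algebraicIndependent_of_count (h : DiagData b t (F := F) a x) {Ω : Type u} [Field Ω]
    [Algebra F Ω] [Algebra L Ω] [IsScalarTower F L Ω] [Algebra.IsAlgebraic L Ω] {I : Type*}
    [Fintype I] (hI : Fintype.card I = r + n) (v : I → Ω)
    (hv : Algebra.IsAlgebraic (IntermediateField.adjoin F (Set.range v)) Ω) :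
    AlgebraicIndependent F v := by
  have halg : Algebra.IsAlgebraic (Algebra.adjoin F (Set.range v)) Ω := by
    rw [← IntermediateField.isAlgebraic_adjoin_iff_top]
    exact hv
  have hind : AlgebraicIndependent F (fun j => algebraMap L Ω
      (Sum.elim t (fun i : Fin n => x i.castSucc.succ) j)) := by
    have h1 := h.ind.map' (f := IsScalarTower.toAlgHom F L Ω) (algebraMap L Ω).injective
    exact h1
  have h2 := hind.lift_cardinalMk_le_trdeg
  have hbas : IsTranscendenceBasis F v := by
    refine Algebra.IsAlgebraic.isTranscendenceBasis_of_lift_le_trdeg_of_finite F v ?_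
    have e1 : Cardinal.mk I = ((r + n : ℕ) : Cardinal) := by
      rw [Cardinal.mk_fintype, hI]
    have e2 : Cardinal.mk (Fin r ⊕ Fin n) = ((r + n : ℕ) : Cardinal) := by
      rw [Cardinal.mk_fintype, Fintype.card_sum, Fintype.card_fin, Fintype.card_fin]
    rw [e2, Cardinal.lift_natCast] at h2
    have h3 : ((r + n : ℕ) : Cardinal.{u}) ≤ Algebra.trdeg F Ω := by simpa using h2
    rw [e1, Cardinal.lift_natCast, ← Cardinal.lift_natCast.{_, u} (r + n)]
    exact Cardinal.lift_le.mpr h3
  exact hbas.1

/-- Hint: `x_i` is a root of `X ^ N - x_i ^ N`, and `L` is generated by `t` and `x`; see `D5_alg` in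
`K/D5.lean`. -/
theorem isAlgebraic_of_mem (h : DiagData b t (F := F) a x) {Ω : Type u} [Field Ω]
    [Algebra F Ω] [Algebra L Ω] [IsScalarTower F L Ω] [Algebra.IsAlgebraic L Ω]
    (T : IntermediateField F Ω) (ht : ∀ i, algebraMap L Ω (t i) ∈ T)
    (hx : ∀ i, algebraMap L Ω (x i ^ b.N) ∈ T) : Algebra.IsAlgebraic T Ω := by
  refine C1_alg b h T (fun i => ?_) (fun i => ?_)
  · exact isAlgebraic_algebraMap (⟨_, ht i⟩ : T)
  · refine IsIntegral.isAlgebraic ⟨X ^ b.N - C ⟨_, hx i⟩, monic_X_pow_sub_C _ b.N_pos.ne', ?_⟩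
    rw [eval₂_sub, eval₂_X_pow, eval₂_C, IntermediateField.algebraMap_apply, ← map_pow, sub_self]

/-- The same conclusion if the elements are only algebraic over `T`. -/
theorem isAlgebraic_of_isAlgebraic (h : DiagData b t (F := F) a x) {Ω : Type u} [Field Ω]
    [Algebra F Ω] [Algebra L Ω] [IsScalarTower F L Ω] [Algebra.IsAlgebraic L Ω]
    (T : IntermediateField F Ω) (ht : ∀ i, IsAlgebraic T (algebraMap L Ω (t i)))
    (hx : ∀ i, IsAlgebraic T (algebraMap L Ω (x i))) : Algebra.IsAlgebraic T Ω :=
  C1_alg b h T ht hx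

end UnrG
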