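import Pool.Agent.Lib.MP_859dd5_ag.Mg.G001
import Pool.Agent.Lib.MP_859dd5_ag.Mg.G003

/-!
# Classes of fields contained in purely transcendental fields
-/

namespace UnrG

universe u v w

open Polynomial Finset
open scoped Classical

variable {m : ℕ}

/-- Proof: the image of `z` in `P` is unramified (`Unr.map`), so it comes from `F` (`unr_purely`), and
vanishes (`const_eq_zero`, `KM.deg_map`); `finrank_smul_eq_zero`. -/
theorem smul_eq_zero_of_purely (hm : Any m) {F E P : Type u} [Field F] [Field E] [Field P]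
    [Algebra F E] [Algebra F P] [Algebra E P] [IsScalarTower F E P] [FiniteDimensional E P]
    (hF : ∀ a : F, a ≠ 0 → ∃ n > 0, a ^ n = 1) {s : ℕ} (v : Fin s → P)
    (hv : AlgebraicIndependent F v) (hgen : IntermediateField.adjoin F (Set.range v) = ⊤)
    {j : ℕ} (hj : 2 ≤ j) {z : KM m E} (hz : Unr z) (hd : z ∈ KM.deg m E j) :
    Module.finrank E P • z = 0 := by
  have h1 : Unr (KM.map m (algebraMap E P) z) := hz.map (algebraMap E P)
  obtain ⟨y, hy⟩ := unr_purely hm v hv hgen h1
  have h2 : KM.map m (algebraMap F P) y ∈ KM.deg m P j := by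
    rw [hy]
    exact KM.deg_map (algebraMap E P) hd
  have h3 := const_eq_zero hm (algebraMap F P) hF hj y h2
  rw [hy] at h3
  exact finrank_smul_eq_zero hm _ rfl h3

/-- Finite extensions. Hint: `finrank_smul_eq_zero` for `C • z`. -/
theorem smul_eq_zero_of_ext (hm : Any m) {E P : Type u} [Field E] [Field P]
    [Algebra E P] [FiniteDimensional E P] {C : ℕ} {z : KM m E}
    (hz : C • KM.map m (algebraMap E P) z = 0) : (Module.finrank E P * C) • z = 0 := by
  have h1 : KM.map m (algebraMap E P) (C • z) = 0 := by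
    rw [map_nsmul, hz]
  have h2 := finrank_smul_eq_zero hm _ rfl h1
  rw [mul_nsmul']
  exact h2

variable {𝔽 : Type w} [Field 𝔽] [Fintype 𝔽] (b : Base 𝔽)

variable {F L : Type u} [Field F] [Field L] [Algebra F L] {ι : 𝔽 →+* F} {r n : ℕ}
  {t : Fin r → L} {a x : Fin (n + 2) → L}

/-- If all unramified classes of the monomial subfield are killed by `C` then the projection is
killed. Proof: let `T = fieldA b F t x α`, `B = finrank T L = (admFix).card`, `y` from
`exists_trT` with `map y = trT ξ`. It becomes unramified in `L`, so `B • y` is unramified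
(`unr_smul_of_map`), hence `C • B • y = 0` and `(C * B) • trT ξ = 0`. Apply `vv` (`vv_zsmul`) and
`vv_trT` (`pair_eq_zero_of_fieldA`): `(C * B * B) • vv α ξ = 0`; `B` divides `(N ^ (n + 1))!`
(`card_admFix`, `galois_fieldT`). See the proof of `vv_eq_zero_of_purely` in `K/D4.lean`. -/
theorem vv_eq_zero_of_fieldA (hm : Any m) (h : DiagData b t (F := F) a x) (w : ZMod b.N → ℤ)
    (α : Fin (n + 2) → ZMod b.N) {j : ℕ} {C : ℕ}
    (hC : ∀ z : KM m (fieldA b F t x α), Unr z → z ∈ KM.deg m (fieldA b F t x α) j → C • z = 0)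
    {ξ : KM m L} (hξ : Unr ξ) (hd : ξ ∈ KM.deg m L j) :
    (C * ((b.N ^ (n + 1)).factorial ^ 2)) • vv b ι t x w α ξ = 0 := by
  have hT : fieldK b F t x ≤ fieldA b F t x α := fieldK_le_fieldA b α
  obtain ⟨hfd, hgal, hle⟩ := galois_fieldT b ι h (fieldA b F t x α) hT
  obtain ⟨y, hy, hyT⟩ := exists_trT (ι := ι) b hm h (fieldA b F t x α) hT hd
  have h1 : Unr (KM.map m (algebraMap (fieldA b F t x α) L) y) := by
    rw [hyT]
    intro A hA
    exact sum_mem fun c _ => (hξ.map (adm b ι t x c)) A hA
  have h2 : Unr (Module.finrank (fieldA b F t x α) L • y) := unr_smul_of_map hm h1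
  have h3 : C • Module.finrank (fieldA b F t x α) L • y = 0 := hC _ h2 (nsmul_mem hy _)
  have h4 : (C * Module.finrank (fieldA b F t x α) L) • trT b ι t x (fieldA b F t x α) ξ = 0 := by
    rw [← hyT, ← map_nsmul, mul_nsmul', h3, map_zero]
  have h5 := congrArg (vv b ι t x w α) h4
  have h6 : vv b ι t x w α (0 : KM m L) = 0 := by
    unfold vv
    simp only [map_zero, smul_zero, Finset.sum_const_zero]
  rw [h6, ← natCast_zsmul, vv_zsmul, natCast_zsmul,
    vv_trT b h w (fieldA b F t x α) (pair_eq_zero_of_fieldA b h α), ← mul_nsmul'] at h5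
  have hcard : (admFix b ι t x (fieldA b F t x α)).card =
      Module.finrank (fieldA b F t x α) L := card_admFix b h (fieldA b F t x α) hT
  have hpos : 0 < Module.finrank (fieldA b F t x α) L := Module.finrank_pos
  have hdvd : Module.finrank (fieldA b F t x α) L ∣ (b.N ^ (n + 1)).factorial :=
    Nat.dvd_factorial hpos hle
  obtain ⟨k, hk⟩ := mul_dvd_mul hdvd hdvd
  rw [hcard] at h5
  have h7 : C * ((b.N ^ (n + 1)).factorial ^ 2) =
      k * (C * Module.finrank (fieldA b F t x α) L * Module.finrank (fieldA b F t x α) L) := by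
    rw [sq, hk]
    ring
  rw [h7, mul_nsmul', h5, nsmul_zero]

end UnrG
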