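import Mathlib

/-!
# Degrees of extensions generated by finitely many elements
-/

namespace UnrG

universe u v

open Polynomial Finset
open scoped Classical

/-- Proof: induction on `l` (`IntermediateField.adjoin_insert_adjoin`-type lemmas or
`IntermediateField.adjoin_adjoin_left`, `IntermediateField.adjoin.finrank`, `minpoly` of the last
element over the previous field divides the image of `f i`; multiplicativity of degrees). -/
theorem finrank_adjoin_le {E : Type u} {Ω : Type v} [Field E] [Field Ω] [Algebra E Ω] {l d : ℕ}
    (s : Fin l → Ω) (f : Fin l → E[X]) (hf : ∀ i, f i ≠ 0) (hd : ∀ i, (f i).natDegree ≤ d)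
    (hs : ∀ i, aeval (s i) (f i) = 0) :
    FiniteDimensional E (IntermediateField.adjoin E (Set.range s)) ∧
      Module.finrank E (IntermediateField.adjoin E (Set.range s)) ≤ d ^ l := by
  induction l with
  | zero =>
    have e : Set.range s = ∅ := Set.range_eq_empty s
    rw [e, IntermediateField.adjoin_empty]
    refine ⟨?_, ?_⟩
    · exact Module.finite_of_finrank_pos (by rw [IntermediateField.finrank_bot]; exact one_pos)
    · rw [IntermediateField.finrank_bot, pow_zero]
  | succ l ih =>
    obtain ⟨h1, h2⟩ := ih (fun i => s i.castSucc) (fun i => f i.castSucc) (fun i => hf _)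
      (fun i => hd _) (fun i => hs _)
    set M : IntermediateField E Ω :=
      IntermediateField.adjoin E (Set.range fun i : Fin l => s i.castSucc) with hM
    set α : Ω := s (Fin.last l) with hα
    have e : IntermediateField.adjoin E (Set.range s) =
        (IntermediateField.adjoin M {α}).restrictScalars E := by
      rw [hM, IntermediateField.adjoin_adjoin_left]
      congr 1
      ext z
      constructor
      · rintro ⟨i, rfl⟩
        refine Fin.lastCases ?_ (fun i => ?_) i
        · exact Or.inr rfl
        · exact Or.inl ⟨i, rfl⟩
      · rintro (⟨i, rfl⟩ | hz)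
        · exact ⟨_, rfl⟩
        · exact ⟨Fin.last l, hz.symm⟩
    have hroot : aeval α ((f (Fin.last l)).map (algebraMap E M)) = 0 := by
      rw [aeval_map_algebraMap]
      exact hs _
    have hne : (f (Fin.last l)).map (algebraMap E M) ≠ 0 :=
      (Polynomial.map_ne_zero_iff (algebraMap E M).injective).mpr (hf _)
    have hint : IsIntegral M α := (isAlgebraic_iff_isIntegral).mp ⟨_, hne, hroot⟩
    have hfin : FiniteDimensional M (IntermediateField.adjoin M {α}) :=
      IntermediateField.adjoin.finiteDimensional hint
    have hdeg : Module.finrank M (IntermediateField.adjoin M {α}) ≤ d := by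
      rw [IntermediateField.adjoin.finrank hint]
      refine (natDegree_le_of_dvd (minpoly.dvd M α hroot) hne).trans ?_
      rw [natDegree_map]
      exact hd _
    rw [e]
    refine ⟨FiniteDimensional.trans E M (IntermediateField.adjoin M {α}), ?_⟩
    have hfree : Module.Free M (IntermediateField.adjoin M {α}) :=
      Module.Free.of_divisionRing M (IntermediateField.adjoin M {α})
    have h3 := Module.finrank_mul_finrank E M (IntermediateField.adjoin M {α})
    have h4 : Module.finrank E ((IntermediateField.adjoin M {α}).restrictScalars E) =
        Module.finrank E (IntermediateField.adjoin M {α}) := rfl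
    rw [h4, ← h3, pow_succ]
    exact Nat.mul_le_mul h2 hdeg

end UnrG
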