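import Pool.Agent.Lib.MP_859dd5_ag.Mg.G009

/-!
# Normalised coordinates on the monomial subfield
-/

namespace UnrG

universe u v w

open Polynomial Finset
open scoped Classical

variable {m : ℕ} {𝔽 : Type w} [Field 𝔽] [Fintype 𝔽] (b : Base 𝔽)

variable {F L : Type u} [Field F] [Field L] [Algebra F L] {ι : 𝔽 →+* F} {r : ℕ}
  {t : Fin r → L} {a x : Fin (4 + 2) → L}

variable (π : Equiv.Perm (Fin (4 + 2)))

/-- Hint: `DiagData.x_ne`, `a_ne`. -/
lemma nX_ne (h : DiagData b t (F := F) a x) (i : Fin (4 + 2)) : nX b.N a x π i ≠ 0 :=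
  div_ne_zero (mul_ne_zero (h.a_ne _) (pow_ne_zero _ (h.x_ne b _)))
    (mul_ne_zero (h.a_ne _) (pow_ne_zero _ (h.x_ne b _)))

lemma nX_last (h : DiagData b t (F := F) a x) : nX b.N a x π 5 = 1 :=
  div_self (mul_ne_zero (h.a_ne _) (pow_ne_zero _ (h.x_ne b _)))

/-- Hint: `rel`, `Equiv.sum_comp`, `Finset.sum_div`. -/
lemma sum_nX (h : DiagData b t (F := F) a x) : ∑ i, nX b.N a x π i = 0 := by
  unfold nX
  rw [← Finset.sum_div, Equiv.sum_comp π (fun i => a i * x i ^ b.N), h.rel, zero_div]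

/-- Hint: `a_mem`. -/
lemma nδ_mem (h : DiagData b t (F := F) a x) (α : Fin (4 + 2) → ZMod b.N) :
    nδ a π α ∈ IntermediateField.adjoin F (Set.range t) ∧ nδ a π α ≠ 0 := by
  unfold nδ
  refine ⟨prod_mem fun i _ => pow_mem (div_mem (h.a_mem _) (h.a_mem _)) _, ?_⟩
  exact prod_ne_zero_iff.2 fun i _ => pow_ne_zero _ (div_ne_zero (h.a_ne _) (h.a_ne _))

end UnrG
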