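import Pool.Agent.Lib.MP_859dd5_ag.PF.D1b

/-!
# Normalised coordinates on the monomial subfield
-/

namespace UnrG

universe u v w

open Polynomial Finset
open scoped Classical

variable {m : ℕ} {𝔽 : Type w} [Field 𝔽] [Fintype 𝔽] (b : Base 𝔽)

variable {F L : Type u} [Field F] [Field L] [Algebra F L] {ι : 𝔽 →+* F} {r : ℕ}
  {t : Fin r → L} {a x : Fin (4 + 2) → L}

variable (π : Equiv.Perm (Fin (4 + 2)))

/-- Hint: `∏ i, nX i ^ (α (π i)).val * (a_{π 5} / a_{π i}) ^ (α (π i)).val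
= ∏ i, (x (π i) ^ N / x (π 5) ^ N) ^ (α (π i)).val = (∏ i, x (π i) ^ (α (π i)).val) ^ N /
(x (π 5) ^ N) ^ (∑ (α i).val)`, reindex the products (`Equiv.prod_comp`), and `∑ (α i).val` is `N`
times the quotient since `∑ α = 0` (`ZMod.natCast_eq_zero_iff`). -/
lemma nw_pow (h : DiagData b t (F := F) a x) {α : Fin (4 + 2) → ZMod b.N} (hα : ∑ i, α i = 0) :
    nw x π α ^ b.N = nδ a π α * ∏ i, nX b.N a x π i ^ (α (π i)).val := by
  have hN := b.N_pos
  have hdvd : b.N ∣ ∑ i, (α i).val := by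
    rw [← ZMod.natCast_eq_zero_iff, Nat.cast_sum, ← hα]
    refine sum_congr rfl fun i _ => ?_
    rw [ZMod.natCast_zmod_val]
  obtain ⟨s, hs⟩ := hdvd
  have hsum : ∑ i, (α (π i)).val = b.N * s := by
    rw [← hs]
    exact Equiv.sum_comp π fun i => (α i).val
  have h5 : x (π 5) ^ b.N ≠ 0 := pow_ne_zero _ (h.x_ne b (π 5))
  have e1 : nδ a π α * ∏ i, nX b.N a x π i ^ (α (π i)).val =
      ∏ i, (x (π i) ^ b.N / x (π 5) ^ b.N) ^ (α (π i)).val := by
    unfold nδ nX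
    rw [← prod_mul_distrib]
    refine prod_congr rfl fun i _ => ?_
    rw [← mul_pow]
    congr 1
    have h1 := h.a_ne (π i)
    have h2 := h.a_ne (π 5)
    field_simp
  have e2 : ∏ i, (x (π i) ^ b.N / x (π 5) ^ b.N) ^ (α (π i)).val =
      (∏ i, (x (π i) ^ b.N) ^ (α (π i)).val) / (x (π 5) ^ b.N) ^ (b.N * s) := by
    rw [← hsum, ← prod_pow_eq_pow_sum, ← prod_div_distrib]
    exact prod_congr rfl fun i _ => div_pow _ _ _
  have e3 : ∏ i, (x (π i) ^ b.N) ^ (α (π i)).val = wmon x α ^ b.N := by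
    rw [Equiv.prod_comp π fun i => (x i ^ b.N) ^ (α i).val]
    unfold wmon
    rw [← prod_pow]
    refine prod_congr rfl fun i _ => ?_
    rw [← pow_mul, ← pow_mul, mul_comm]
  rw [e1, e2, e3]
  unfold nw
  rw [hs, Nat.mul_div_cancel_left _ hN, div_pow, ← pow_mul (x (π 5) ^ b.N), mul_comm s]

end UnrG
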