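import Pool.Agent.Lib.MP_859dd5_ag.PF.D1b

/-!
# Normalised coordinates on the monomial subfield
-/

namespace UnrG

universe u v w

open Polynomial Finset
open scoped Classical

variable {m : ℕ} {𝔽 : Type w} [Field 𝔽] [Fintype 𝔽] (b : Base 𝔽)

variable {F L : Type u} [Field F] [Field L] [Algebra F L] {ι : 𝔽 →+* F} {r : ℕ}
  {t : Fin r → L} {a x : Fin (4 + 2) → L}

variable (π : Equiv.Perm (Fin (4 + 2)))

private lemma D1d_a (h : DiagData b t (F := F) a x) {E : IntermediateField F L}
    (hE : Set.range t ⊆ E) (i : Fin (4 + 2)) : a i ∈ E :=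
  (IntermediateField.adjoin_le_iff.2 hE) (h.a_mem i)

/-- Hint: `⊆`: all generators lie in `fieldA` (`a_mem`, `mem_of_a` of K/D7 gives `a i ∈ fieldK`).
`⊇`: let `R` be the left-hand side. It contains `a i`. As `x 0 = 1`, with `i₀ = π⁻¹ 0`:
`nX i₀ = a 0 / (a (π 5) x (π 5) ^ N)`, so `x (π 5) ^ N ∈ R`, so all `x i ^ N ∈ R`; and
`wmon x α = nw * (x (π 5) ^ N) ^ _ ∈ R`. -/
lemma adjoin_nX (h : DiagData b t (F := F) a x) (α : Fin (4 + 2) → ZMod b.N) :
    IntermediateField.adjoin F (Set.range t ∪ Set.range (nX b.N a x π) ∪ {nw x π α}) =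
      fieldA b F t x α := by
  apply le_antisymm
  · rw [IntermediateField.adjoin_le_iff]
    have ht : Set.range t ⊆ (fieldA b F t x α : Set L) := fun z hz =>
      IntermediateField.subset_adjoin F _ (Or.inl (Or.inl hz))
    have ha : ∀ i, a i ∈ fieldA b F t x α := D1d_a b h ht
    have hx : ∀ i, x i ^ b.N ∈ fieldA b F t x α := fun i =>
      IntermediateField.subset_adjoin F _ (Or.inl (Or.inr ⟨i, rfl⟩))
    have hw : wmon x α ∈ fieldA b F t x α :=
      IntermediateField.subset_adjoin F _ (Or.inr rfl)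
    rintro z ((hz | ⟨i, rfl⟩) | hz)
    · exact ht hz
    · exact div_mem (mul_mem (ha _) (hx _)) (mul_mem (ha _) (hx _))
    · rw [Set.mem_singleton_iff] at hz
      rw [hz]
      exact div_mem hw (pow_mem (hx _) _)
  · unfold fieldA
    rw [IntermediateField.adjoin_le_iff]
    set E := IntermediateField.adjoin F
      (Set.range t ∪ Set.range (nX b.N a x π) ∪ {nw x π α}) with hE
    have ht : Set.range t ⊆ (E : Set L) := fun z hz =>
      IntermediateField.subset_adjoin F _ (Or.inl (Or.inl hz))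
    have ha : ∀ i, a i ∈ E := D1d_a b h ht
    have hn : ∀ i, nX b.N a x π i ∈ E := fun i =>
      IntermediateField.subset_adjoin F _ (Or.inl (Or.inr ⟨i, rfl⟩))
    have hw : nw x π α ∈ E := IntermediateField.subset_adjoin F _ (Or.inr rfl)
    have h5 : x (π 5) ^ b.N ≠ 0 := pow_ne_zero _ (h.x_ne b (π 5))
    have hx5 : x (π 5) ^ b.N ∈ E := by
      have h1 := hn (π.symm 0)
      have h2 : x (π 5) ^ b.N = a 0 / (a (π 5) * nX b.N a x π (π.symm 0)) := by
        unfold nX
        rw [Equiv.apply_symm_apply, h.x_zero, one_pow, mul_one]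
        have h3 := h.a_ne 0
        have h4 := h.a_ne (π 5)
        field_simp
      rw [h2]
      exact div_mem (ha _) (mul_mem (ha _) h1)
    have hx : ∀ i, x i ^ b.N ∈ E := by
      intro i
      have h1 := hn (π.symm i)
      have h2 : x i ^ b.N = nX b.N a x π (π.symm i) * (a (π 5) * x (π 5) ^ b.N) / a i := by
        unfold nX
        rw [Equiv.apply_symm_apply]
        have h3 := h.a_ne i
        have h4 := h.a_ne (π 5)
        field_simp
      rw [h2]
      exact div_mem (mul_mem h1 (mul_mem (ha _) hx5)) (ha _)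
    rintro z ((hz | ⟨i, rfl⟩) | hz)
    · exact ht hz
    · exact hx i
    · rw [Set.mem_singleton_iff] at hz
      have h6 : wmon x α = nw x π α * (x (π 5) ^ b.N) ^ ((∑ i, (α i).val) / b.N) := by
        unfold nw
        rw [div_mul_cancel₀ _ (pow_ne_zero _ h5)]
      rw [hz, h6]
      exact mul_mem hw (pow_mem hx5 _)

end UnrG
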