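import Pool.Agent.Lib.MP_859dd5_ag.PF.D1b

/-!
# Normalised coordinates on the monomial subfield
-/

namespace UnrG

universe u v w

open Polynomial Finset
open scoped Classical

variable {m : ℕ} {𝔽 : Type w} [Field 𝔽] [Fintype 𝔽] (b : Base 𝔽)

variable {F L : Type u} [Field F] [Field L] [Algebra F L] {ι : 𝔽 →+* F} {r : ℕ}
  {t : Fin r → L} {a x : Fin (4 + 2) → L}

variable (π : Equiv.Perm (Fin (4 + 2)))

private lemma D1e_mem (h : DiagData b t (F := F) a x) {E : IntermediateField F L}
    (hE : Set.range t ⊆ E)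
    (h4 : ∀ i : Fin 4, nX b.N a x π (i.castLE (by norm_num)) ∈ E) (j : Fin (4 + 2)) :
    x j ^ b.N ∈ E := by
  have ha : ∀ i, a i ∈ E := fun i => (IntermediateField.adjoin_le_iff.2 hE) (h.a_mem i)
  have hX5 : nX b.N a x π 5 ∈ E := by
    rw [nX_last b π h]
    exact one_mem _
  have hX0 : nX b.N a x π 0 ∈ E := h4 0
  have hX1 : nX b.N a x π 1 ∈ E := h4 1
  have hX2 : nX b.N a x π 2 ∈ E := h4 2
  have hX3 : nX b.N a x π 3 ∈ E := h4 3
  have hX4 : nX b.N a x π 4 ∈ E := by
    have h1 := sum_nX b π h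
    rw [Fin.sum_univ_six] at h1
    have h2 : nX b.N a x π 4 = -(nX b.N a x π 0 + nX b.N a x π 1 + nX b.N a x π 2 +
        nX b.N a x π 3 + nX b.N a x π 5) := by
      linear_combination h1
    rw [h2]
    exact neg_mem (add_mem (add_mem (add_mem (add_mem hX0 hX1) hX2) hX3) hX5)
  have hX : ∀ i : Fin (4 + 2), nX b.N a x π i ∈ E := by
    intro i
    fin_cases i
    · exact hX0
    · exact hX1
    · exact hX2
    · exact hX3
    · exact hX4
    · exact hX5
  have hane := h.a_ne (π 5)
  have hx5 : x (π 5) ^ b.N ≠ 0 := pow_ne_zero _ (h.x_ne b (π 5))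
  have h5 : x (π 5) ^ b.N ∈ E := by
    have h1 : nX b.N a x π (π.symm 0) = a 0 / (a (π 5) * x (π 5) ^ b.N) := by
      unfold nX
      rw [Equiv.apply_symm_apply, h.x_zero, one_pow, mul_one]
    have h2 : x (π 5) ^ b.N = a 0 / (a (π 5) * nX b.N a x π (π.symm 0)) := by
      rw [h1]
      have h3 := h.a_ne 0
      field_simp
    rw [h2]
    exact div_mem (ha 0) (mul_mem (ha _) (hX _))
  have h6 : x j ^ b.N = nX b.N a x π (π.symm j) * (a (π 5) * x (π 5) ^ b.N) / a j := by
    unfold nX
    rw [Equiv.apply_symm_apply]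
    have h3 := h.a_ne j
    field_simp
  rw [h6]
  exact div_mem (mul_mem (hX _) (mul_mem (ha _) h5)) (ha j)

open scoped IntermediateField.algebraAdjoinAdjoin in
/-- Hint: as `algebraicIndependent_coord` in K/D7: `L` is algebraic over the field generated by
`t` and `nX 0, …, nX 3`: it contains `nX 5 = 1`, `nX 4 = -∑ ...` (`sum_nX`), so all `x i ^ N` (as in
`adjoin_nX`); `L` has transcendence degree `r + 4` (`h.ind`, reindex). -/
theorem indep_nX (h : DiagData b t (F := F) a x) :
    AlgebraicIndependent F (Sum.elim t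
      (fun i : Fin 4 => nX b.N a x π (i.castLE (by norm_num)))) := by
  set S : Set L := Set.range (Sum.elim t
      (fun i : Fin 4 => nX b.N a x π (i.castLE (by norm_num)))) with hS
  set E := IntermediateField.adjoin F S with hE
  have hSt : ∀ i, t i ∈ E := fun i =>
    IntermediateField.subset_adjoin F _ ⟨Sum.inl i, rfl⟩
  have hE' : Set.range t ⊆ E := by
    rintro _ ⟨i, rfl⟩
    exact hSt i
  have h4 : ∀ i : Fin 4, nX b.N a x π (i.castLE (by norm_num)) ∈ E := fun i =>
    IntermediateField.subset_adjoin F _ ⟨Sum.inr i, rfl⟩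
  have h1 : ∀ z : L, IsAlgebraic E z := by
    have h2 : (⊤ : IntermediateField F L) ≤ (algebraicClosure E L).restrictScalars F := by
      rw [← h.gen, IntermediateField.adjoin_le_iff]
      rintro z (⟨i, rfl⟩ | ⟨i, rfl⟩)
      · change t i ∈ algebraicClosure E L
        rw [mem_algebraicClosure_iff]
        exact isAlgebraic_algebraMap (⟨t i, hSt i⟩ : E)
      · have hz' : x i ^ b.N ∈ E := D1e_mem b π h hE' h4 i
        change x i ∈ algebraicClosure E L
        rw [mem_algebraicClosure_iff]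
        exact IsAlgebraic.of_pow b.N_pos (isAlgebraic_algebraMap (⟨x i ^ b.N, hz'⟩ : E))
    intro z
    have h5 : z ∈ algebraicClosure E L := h2 (x := z) trivial
    rwa [mem_algebraicClosure_iff] at h5
  have h3 : Algebra.IsAlgebraic E L := ⟨h1⟩
  have h4 : Algebra.IsAlgebraic (Algebra.adjoin F S) L :=
    (IsFractionRing.comap_isAlgebraic_iff (K := E)).2 h3
  exact (Algebra.IsAlgebraic.isTranscendenceBasis_of_lift_le_trdeg_of_finite F _
    h.ind.lift_cardinalMk_le_trdeg).1

end UnrG
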