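import Pool.Agent.Lib.MP_859dd5_ag.PF.D1c
import Pool.Agent.Lib.MP_859dd5_ag.PF.D1d
import Pool.Agent.Lib.MP_859dd5_ag.PF.D1e

/-!
# The monomial subfield has two twisted pairs
-/

namespace UnrG

universe u v w

open Polynomial Finset
open scoped Classical

variable {m : ℕ} {𝔽 : Type w} [Field 𝔽] [Fintype 𝔽] (b : Base 𝔽)

variable {F L : Type u} [Field F] [Field L] [Algebra F L] {ι : 𝔽 →+* F} {r : ℕ}
  {t : Fin r → L} {a x : Fin (4 + 2) → L}

/-- The monomial subfield. Hint: the elements `t`, `nX`, `nw`, `nδ` of `L` lie in `fieldA`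
(`adjoin_nX`, `nδ_mem`); take them as elements of the subtype. All identities follow from those in
`L`; independence by `AlgebraicIndependent.of_...` for the injection `fieldA → L`
(`AlgHom.algebraicIndependent_iff (fieldA ...).val`); `gen` from `adjoin_nX`
(`IntermediateField.adjoin` of a subset of `L` equal to `T` gives `⊤` in `T`:
`IntermediateField.lift_adjoin`, `IntermediateField.lift_top`, `IntermediateField.lift_injective`,
or `IntermediateField.adjoin_map` with the embedding `T.val`; see K/D4-D6, K/D9 for similar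
steps). Divisibilities: `(α (π 1)).val` is congruent to `-p ^ k₁ (α (π 0)).val` mod `N`
(`ZMod.natCast_eq_zero_iff`, `ZMod.natCast_zmod_val`). -/
theorem exists_cycData (h : DiagData b t (F := F) a x) {p : ℕ} {α : Fin (4 + 2) → ZMod b.N}
    (hα : ∑ i, α i = 0) (π : Equiv.Perm (Fin (4 + 2))) {k₁ k₂ : ℕ} (hk₁ : 0 < k₁) (hk₂ : 0 < k₂)
    (h1 : α (π 1) = -(p : ZMod b.N) ^ k₁ * α (π 0))
    (h2 : α (π 3) = -(p : ZMod b.N) ^ k₂ * α (π 2)) (h4 : (α (π 4)).val.Coprime b.N) :
    ∃ (t' : Fin r → fieldA b F t x α) (X' : Fin 6 → fieldA b F t x α)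
      (w' δ' : fieldA b F t x α),
      CycData p b.N k₁ k₂ (F := F) t' X' w' δ' (fun i => (α (π i)).val) := by
  set T := fieldA b F t x α with hT
  have hgen := adjoin_nX b π h α
  have ht : ∀ i, t i ∈ T := fun i =>
    IntermediateField.subset_adjoin F _ (Or.inl (Or.inl ⟨i, rfl⟩))
  have hX : ∀ i, nX b.N a x π i ∈ T := fun i => by
    rw [hT, ← hgen]
    exact IntermediateField.subset_adjoin F _ (Or.inl (Or.inr ⟨i, rfl⟩))
  have hw : nw x π α ∈ T := by
    rw [hT, ← hgen]
    exact IntermediateField.subset_adjoin F _ (Or.inr rfl)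
  have hδ0 := nδ_mem b π h α
  have hδ : nδ a π α ∈ T := by
    refine (IntermediateField.adjoin_le_iff.2 ?_) hδ0.1
    rintro _ ⟨i, rfl⟩
    exact ht i
  refine ⟨fun i => ⟨t i, ht i⟩, fun i => ⟨nX b.N a x π i, hX i⟩, ⟨nw x π α, hw⟩,
    ⟨nδ a π α, hδ⟩, ?_⟩
  refine ⟨b.N_pos, hk₁, hk₂, ?_, ?_, h4, ?_, ?_, ?_, ?_, ?_, ?_, ?_, ?_⟩
  · rw [← ZMod.natCast_eq_zero_iff]
    push_cast
    rw [ZMod.natCast_zmod_val, ZMod.natCast_zmod_val, h1]
    ring
  · rw [← ZMod.natCast_eq_zero_iff]
    push_cast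
    rw [ZMod.natCast_zmod_val, ZMod.natCast_zmod_val, h2]
    ring
  · intro i h0
    exact nX_ne b π h i (congrArg Subtype.val h0)
  · exact Subtype.ext (nX_last b π h)
  · apply Subtype.ext
    have h3 := sum_nX b π h
    rw [AddSubmonoidClass.coe_finsetSum]
    exact h3
  · rw [← IntermediateField.mem_lift, IntermediateField.lift_adjoin]
    have h5 : Subtype.val '' (Set.range fun i => (⟨t i, ht i⟩ : T)) = Set.range t := by
      rw [← Set.range_comp]
      rfl
    rw [h5]
    exact hδ0.1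
  · intro h0
    exact hδ0.2 (congrArg Subtype.val h0)
  · apply Subtype.ext
    have h3 := nw_pow b π h hα
    have h5 : (((∏ i, (⟨nX b.N a x π i, hX i⟩ : T) ^ (α (π i)).val : T)) : L) =
        ∏ i, nX b.N a x π i ^ (α (π i)).val := by
      rw [SubmonoidClass.coe_finsetProd]
      rfl
    change nw x π α ^ b.N = nδ a π α * (((∏ i, (⟨nX b.N a x π i, hX i⟩ : T) ^ (α (π i)).val : T)) : L)
    rw [h5]
    exact h3
  · apply AlgebraicIndependent.of_comp (IntermediateField.val T)
    have h3 := indep_nX b π h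
    have h5 : (IntermediateField.val T) ∘ (Sum.elim (fun i => (⟨t i, ht i⟩ : T))
        (fun i : Fin 4 => (⟨nX b.N a x π (i.castLE (by norm_num)), hX _⟩ : T))) =
        Sum.elim t (fun i : Fin 4 => nX b.N a x π (i.castLE (by norm_num))) := by
      funext i
      rcases i with i | i <;> rfl
    rw [h5]
    exact h3
  · apply IntermediateField.lift_injective T
    rw [IntermediateField.lift_top, IntermediateField.lift_adjoin]
    have h5 : Subtype.val '' ((Set.range fun i => (⟨t i, ht i⟩ : T)) ∪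
        (Set.range fun i => (⟨nX b.N a x π i, hX i⟩ : T)) ∪ {(⟨nw x π α, hw⟩ : T)}) =
        Set.range t ∪ Set.range (nX b.N a x π) ∪ {nw x π α} := by
      rw [Set.image_union, Set.image_union, ← Set.range_comp, ← Set.range_comp,
        Set.image_singleton]
      rfl
    rw [h5]
    exact hgen

end UnrG
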