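import Pool.Agent.Lib.MP_859dd5_ag.Mg.G001

/-!
# Descent of the weighted projection to the monomial subfield
-/

namespace UnrG

universe u v w

open Polynomial Finset
open scoped Classical

variable {m : ℕ} {𝔽 : Type w} [Field 𝔽] [Fintype 𝔽] (b : Base 𝔽)

variable {F L : Type u} [Field F] [Field L] [Algebra F L] {ι : 𝔽 →+* F} {r n : ℕ}
  {t : Fin r → L} {a x : Fin (n + 2) → L}

/-- Descent. Proof (compare `vv_eq_zero_of_purely` and `trT_eq_zero` in K/D4): let
`T = fieldA b F t x α`, `B = finrank T L = (admFix).card ≤ N ^ (n + 1)` (`galois_fieldT`,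
`card_admFix`), `y ∈ KM m T` of degree `j` with image `trT ξ` (`exists_trT`). Its image is
unramified, so `B • y` is (`unr_smul_of_map`), hence `C₀ • (B • y) = 0` and `(C₀ * B) • trT ξ = 0`. By
`vv_trT` and `pair_eq_zero_of_fieldA`, `B • vv α ξ = vv α (trT ξ)`, so `(C₀ * B ^ 2) • vv α ξ = 0`
(`vv_zsmul`), and `B` divides `(N ^ (n + 1))!`. -/
theorem vv_eq_zero_of_subA (hm : Any m) (h : DiagData b t (F := F) a x)
    (α : Fin (n + 2) → ZMod b.N) {C₀ j : ℕ}
    (hC : ∀ z : KM m (fieldA b F t x α), Unr z → z ∈ KM.deg m (fieldA b F t x α) j →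
      C₀ • z = 0) (w : ZMod b.N → ℤ) {ξ : KM m L} (hξ : Unr ξ) (hd : ξ ∈ KM.deg m L j) :
    (C₀ * ((b.N ^ (n + 1)).factorial) ^ 2) • vv b ι t x w α ξ = 0 := by
  obtain ⟨T, hTdef⟩ : ∃ T, T = fieldA b F t x α := ⟨_, rfl⟩
  have hpair := pair_eq_zero_of_fieldA (ι := ι) b h α
  rw [← hTdef] at hC hpair
  have hT : fieldK b F t x ≤ T := by rw [hTdef]; exact fieldK_le_fieldA b α
  obtain ⟨hfd, hgal, hle⟩ := galois_fieldT b ι h T hT
  obtain ⟨y, hyd, hyT⟩ := exists_trT (ι := ι) b hm h T hT hd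
  have h1 : Unr (KM.map m (algebraMap T L) y) := by
    rw [hyT]
    intro A hA
    exact sum_mem fun c _ => (hξ.map (adm b ι t x c)) A hA
  have h2 : Unr (Module.finrank T L • y) := unr_smul_of_map hm h1
  have h3 : C₀ • (Module.finrank T L • y) = 0 := hC _ h2 (nsmul_mem hyd _)
  have h4 : (C₀ * Module.finrank T L) • trT b ι t x T ξ = 0 := by
    have h5 := congrArg (KM.map m (algebraMap T L)) h3
    rw [map_nsmul, map_nsmul, hyT, map_zero, smul_smul] at h5
    exact h5
  have h5 := congrArg (vv b ι t x w α) h4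
  have h6 : vv b ι t x w α (0 : KM m L) = 0 := by
    unfold vv
    simp only [map_zero, smul_zero, Finset.sum_const_zero]
  rw [h6, ← natCast_zsmul, vv_zsmul, natCast_zsmul, vv_trT b h w T hpair, smul_smul,
    card_admFix b h T hT] at h5
  have hpos : 0 < Module.finrank T L := Module.finrank_pos
  have hdvd : Module.finrank T L ∣ (b.N ^ (n + 1)).factorial := Nat.dvd_factorial hpos hle
  obtain ⟨k, hk⟩ := mul_dvd_mul hdvd hdvd
  have e : C₀ * ((b.N ^ (n + 1)).factorial) ^ 2 =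
      k * (C₀ * Module.finrank T L * Module.finrank T L) := by
    rw [sq, hk]; ring
  rw [e, mul_smul, h5, smul_zero]

end UnrG
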