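import Pool.Agent.Lib.MP_859dd5_ag.PF.D2
import Pool.Agent.Lib.MP_859dd5_ag.PF.D3
import Pool.Agent.Lib.MP_859dd5_ag.Mg.G074

/-!
# Exponents with two twisted pairs
-/

namespace UnrG

universe u v w

open Polynomial Finset
open scoped Classical

variable {𝔽 : Type w} [Field 𝔽] [Fintype 𝔽] (b : Base 𝔽)

/-- Exponents with two twisted pairs. Proof: by `exists_perm` and `TwistedPairs` there are a
permutation `π` and `k₁`, `k₂`; adding a multiple of the order of `p` mod `N` (`p` does not divide `N`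
when there is a field of characteristic `p` containing `𝔽`: `Base.N_ne`; otherwise the statement is
empty and `C = 1` works: distinguish `p ∣ N` or not) we may take `k₁, k₂ > 0`, e.g. add
`Nat.totient N` (`ZMod.pow_totient`). `α (π 4) ≠ 0` and `N` is prime, so `(α (π 4)).val` is prime to
`N`. Now `exists_cycData`, `CycData.unr` and `vv_eq_zero_of_subA`. -/
theorem vv_eq_zero_of_twisted (hN : b.N.Prime) {p : ℕ} [Fact p.Prime]
    {α : Fin (4 + 2) → ZMod b.N} (h0 : ∀ i, α i ≠ 0) (hsum : ∑ i, α i = 0)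
    (hα : TwistedPairs p α) :
    ∃ C S : ℕ, 0 < C ∧ 0 < S ∧ ∀ (m : ℕ) (F L : Type u) [Field F] [FixSp F p S] [CharP F p] [Field L]
      [Algebra F L] (_ : ∀ a : F, a ≠ 0 → ∃ n > 0, a ^ n = 1) (ι : 𝔽 →+* F) (r : ℕ)
      (t : Fin r → L) (a x : Fin (4 + 2) → L) (_ : DiagData b t (F := F) a x)
      (w : ZMod b.N → ℤ) (j : ℕ) (_ : 2 ≤ j) (ξ : KM m L) (_ : Unr ξ) (_ : ξ ∈ KM.deg m L j),
      C • vv b ι t x w α ξ = 0 := by
  obtain ⟨i₀, i₁, i₂, i₃, hnd, k₁, k₂, h1, h2⟩ := hα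
  obtain ⟨π, e0, e1, e2, e3⟩ := exists_perm hnd
  have hpp : p.Prime := Fact.out
  by_cases hp : p ∣ b.N
  · refine ⟨1, 1, one_pos, one_pos, ?_⟩
    intro m F L _ _ _ _ _ hF ι r t a x hD w j hj ξ hξ hd
    exact absurd ((CharP.cast_eq_zero_iff F p b.N).2 hp) (b.N_ne ι)
  · have hc : Nat.Coprime p b.N := (Nat.Prime.coprime_iff_not_dvd hpp).2 hp
    have hpw : (p : ZMod b.N) ^ Nat.totient b.N = 1 := by
      have h3 := ZMod.pow_totient (ZMod.unitOfCoprime p hc)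
      have h4 := congrArg (fun u : (ZMod b.N)ˣ => (u : ZMod b.N)) h3
      rw [Units.val_pow_eq_pow_val, ZMod.coe_unitOfCoprime, Units.val_one] at h4
      exact h4
    have hf : 0 < Nat.totient b.N := Nat.totient_pos.2 b.N_pos
    have g1 : α (π 1) = -(p : ZMod b.N) ^ (k₁ + Nat.totient b.N) * α (π 0) := by
      rw [e1, e0, h1, pow_add, hpw, mul_one]
    have g2 : α (π 3) = -(p : ZMod b.N) ^ (k₂ + Nat.totient b.N) * α (π 2) := by
      rw [e3, e2, h2, pow_add, hpw, mul_one]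
    have h4 : (α (π 4)).val.Coprime b.N := by
      have : NeZero b.N := ⟨b.N_pos.ne'⟩
      have h5 : (α (π 4)).val ≠ 0 := by
        rw [ne_eq, ZMod.val_eq_zero]
        exact h0 _
      have h6 : (α (π 4)).val < b.N := ZMod.val_lt _
      refine (Nat.Coprime.symm ?_)
      rw [Nat.Prime.coprime_iff_not_dvd hN]
      intro h7
      exact absurd (Nat.le_of_dvd (Nat.pos_of_ne_zero h5) h7) (not_le.2 h6)
    obtain ⟨K₁, hK₁⟩ : ∃ K, K = k₁ + Nat.totient b.N := ⟨_, rfl⟩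
    obtain ⟨K₂, hK₂⟩ : ∃ K, K = k₂ + Nat.totient b.N := ⟨_, rfl⟩
    rw [← hK₁] at g1
    rw [← hK₂] at g2
    have hK₁p : 0 < K₁ := by rw [hK₁]; exact Nat.add_pos_right _ hf
    have hK₂p : 0 < K₂ := by rw [hK₂]; exact Nat.add_pos_right _ hf
    refine ⟨(((p ^ (K₁ * K₂)) ^ 2).factorial * (p ^ (K₁ * K₂) * ((p ^ (K₁ * K₂)) ^ 2).factorial))
      * ((b.N ^ (4 + 1)).factorial) ^ 2, K₁ * K₂, ?_, Nat.mul_pos hK₁p hK₂p, ?_⟩
    · have := hpp.pos
      positivity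
    · intro m F L _ _ _ _ _ hF ι r t a x hD w j hj ξ hξ hd
      obtain ⟨t', X', w', δ', hcyc⟩ := exists_cycData b hD hsum π hK₁p hK₂p g1 g2 h4
      exact vv_eq_zero_of_subA b (any m) hD α
        (fun z hz hzd => hcyc.unr (any m) hF hj hz hzd) w hξ hd

end UnrG
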