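import Pool.Agent.Lib.MP_859dd5_ag.Mg.G069

/-!
# Hermitian forms: constants and an identity
-/

namespace UnrG

universe u v

open Polynomial Finset

/-- The constants used for the transformation of the Hermitian form, `Q = p ^ κ`. -/
structure HermConst {F : Type u} [Field F] (p κ : ℕ) (ε c c' : F) : Prop where
  hε : ε ^ (p ^ κ + 1) = -1
  sub_eq : c - c' = 1
  pow_sub_eq : c ^ (p ^ κ) - c' ^ (p ^ κ) = 1
  norm_eq : c ^ (p ^ κ + 1) = c' ^ (p ^ κ + 1)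

/-- Proof: `Q + 1 ≥ 3` is prime to `p`, so there is `θ ≠ 1` with `θ ^ (Q + 1) = 1`; put
`c = 1 / (1 - θ)`, `c' = θ c`. Then `c ^ Q = 1 / (1 - θ ^ Q) = 1 / (1 - θ⁻¹) = -c'` and
`c' ^ Q = θ⁻¹ c ^ Q = -c`. -/
theorem exists_hermConst {F : Type u} [Field F] (p κ : ℕ) [FixSp F p (2 * κ)] [Fact p.Prime]
    [CharP F p] (hκ : 0 < κ) : ∃ ε c c' : F, HermConst p κ ε c c' := by
  have hp : p.Prime := Fact.out
  have hS : FixSp F p (2 * κ) := inferInstance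
  obtain ⟨ε, hε⟩ := hS.exists_pow_eq_neg_one hp hκ
  obtain ⟨θ, hθ⟩ := hS.exists_isPrimitiveRoot hp (by omega) (N := p ^ κ + 1) (by
    have h1 : p ^ (2 * κ) = (p ^ κ) ^ 2 := by rw [← pow_mul, mul_comm]
    rw [h1, ← one_pow 2, Nat.sq_sub_sq, one_pow]
    exact dvd_mul_right _ _)
  have hQ1 : 1 < p ^ κ + 1 := by
    have := Nat.pow_pos (n := κ) hp.pos
    omega
  have hθ1 : θ ≠ 1 := hθ.ne_one hQ1
  have hθp : θ ^ (p ^ κ) * θ = 1 := by rw [← pow_succ]; exact hθ.pow_eq_one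
  have hθ0 : θ ≠ 0 := right_ne_zero_of_mul_eq_one hθp
  have h1 : (1 : F) - θ ≠ 0 := sub_ne_zero.2 (Ne.symm hθ1)
  have hθi : θ ^ (p ^ κ) = θ⁻¹ := eq_inv_of_mul_eq_one_left hθp
  have h2 : (1 : F) - θ⁻¹ ≠ 0 := by
    rw [sub_ne_zero]
    intro h
    exact hθ1 (inv_eq_one.1 h.symm)
  have hc : ((1 - θ)⁻¹ : F) ^ (p ^ κ) = -(θ * (1 - θ)⁻¹) := by
    rw [inv_pow, sub_pow_char_pow, one_pow, hθi]
    have h3 : (1 : F) - θ⁻¹ = -((1 - θ) * θ⁻¹) := by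
      field_simp
      ring
    rw [h3]
    field_simp
  have hc' : (θ * (1 - θ)⁻¹ : F) ^ (p ^ κ) = -(1 - θ)⁻¹ := by
    rw [mul_pow, hc, hθi]
    field_simp
  refine ⟨ε, (1 - θ)⁻¹, θ * (1 - θ)⁻¹, hε, ?_, ?_, ?_⟩
  · field_simp
  · rw [hc, hc']
    field_simp
    ring
  · rw [pow_succ, pow_succ, hc, hc']
    ring

/-- Proof: `(A + B) ^ Q = A ^ Q + B ^ Q`; expand. -/
theorem HermConst.identity {F : Type u} [Field F] {p κ : ℕ} [Fact p.Prime] [CharP F p]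
    {ε c c' : F} (h : HermConst p κ ε c c') {Ω : Type v} [Field Ω] [Algebra F Ω] (y₁ y₂ : Ω) :
    (y₁ + algebraMap F Ω c * y₂) ^ (p ^ κ + 1) +
      (algebraMap F Ω ε * (y₁ + algebraMap F Ω c' * y₂)) ^ (p ^ κ + 1) =
    y₁ ^ (p ^ κ) * y₂ + y₁ * y₂ ^ (p ^ κ) := by
  haveI : CharP Ω p := charP_of_injective_algebraMap (algebraMap F Ω).injective p
  have e1 : algebraMap F Ω ε ^ (p ^ κ + 1) = -1 := by
    rw [← map_pow, h.hε, map_neg, map_one]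
  have e2 : algebraMap F Ω c - algebraMap F Ω c' = 1 := by
    rw [← map_sub, h.sub_eq, map_one]
  have e3 : algebraMap F Ω c ^ (p ^ κ) - algebraMap F Ω c' ^ (p ^ κ) = 1 := by
    rw [← map_pow, ← map_pow, ← map_sub, h.pow_sub_eq, map_one]
  have e4 : algebraMap F Ω c ^ (p ^ κ) * algebraMap F Ω c
      = algebraMap F Ω c' ^ (p ^ κ) * algebraMap F Ω c' := by
    rw [← pow_succ, ← pow_succ, ← map_pow, ← map_pow, h.norm_eq]
  rw [mul_pow, e1, pow_succ, pow_succ, add_pow_char_pow, add_pow_char_pow, mul_pow, mul_pow]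
  linear_combination y₁ ^ (p ^ κ) * y₂ * e2 + y₁ * y₂ ^ (p ^ κ) * e3 + y₂ ^ (p ^ κ) * y₂ * e4

end UnrG
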