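import Pool.Agent.Lib.MP_859dd5_ag.PF.H1

/-!
# The parametrization of the Hermitian hypersurface
-/

namespace UnrG

universe u v

open Polynomial Finset

/-- A point `u` of the Hermitian hypersurface `∑ u_i ^ (Q + 1) = 0`, `u_0 = 1`, of dimension
`k + 2`, with its transformed coordinates `y₁, …, y₄` and `μ ^ Q = -y₄ / y₂`. -/
structure HermData {F : Type u} {Ω : Type v} [Field F] [Field Ω] [Algebra F Ω] (p κ : ℕ) {k : ℕ}
    (ε c c' : F) (z : Fin (k + 4) → Ω) (y₁ y₂ y₃ y₄ μ : Ω) : Prop where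
  z_zero : z 0 = 1
  rel : ∑ i, z i ^ (p ^ κ + 1) = 0
  e₀ : z 0 = y₁ + algebraMap F Ω c * y₂
  e₁ : z 1 = algebraMap F Ω ε * (y₁ + algebraMap F Ω c' * y₂)
  e₂ : z 2 = y₃ + algebraMap F Ω c * y₄
  e₃ : z 3 = algebraMap F Ω ε * (y₃ + algebraMap F Ω c' * y₄)
  y₂_ne : y₂ ≠ 0
  hμ : μ ^ (p ^ κ) * y₂ = -y₄

variable {F : Type u} {Ω : Type v} [Field F] [Field Ω] [Algebra F Ω] {p κ k : ℕ}

/-- Hint: `y₂ = z 0 - z 1 / ε`, `y₁ = z 0 - c y₂`, the same for `z 2`, `z 3`; `Ω` is algebraically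
closed. -/
theorem exists_hermData [IsAlgClosed Ω] [Fact p.Prime] {ε c c' : F}
    (hc : HermConst p κ ε c c') {z : Fin (k + 4) → Ω} (h0 : z 0 = 1)
    (hrel : ∑ i, z i ^ (p ^ κ + 1) = 0) (h1 : z 1 ≠ algebraMap F Ω ε) :
    ∃ y₁ y₂ y₃ y₄ μ : Ω, HermData p κ ε c c' z y₁ y₂ y₃ y₄ μ := by
  have hp : p.Prime := Fact.out
  have hε : ε ≠ 0 := by
    intro h
    have := hc.hε
    rw [h, zero_pow (Nat.succ_ne_zero _)] at this
    have h2 : (1 : F) = 0 := by linear_combination this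
    exact one_ne_zero h2
  have hε' : algebraMap F Ω ε ≠ 0 := by
    rw [Ne, map_eq_zero]
    exact hε
  have e2 : algebraMap F Ω c - algebraMap F Ω c' = 1 := by
    rw [← map_sub, hc.sub_eq, map_one]
  have hy2 : z 0 - z 1 / algebraMap F Ω ε ≠ 0 := by
    rw [sub_ne_zero, h0]
    intro h
    apply h1
    field_simp at h
    exact h.symm
  obtain ⟨μ, hμ⟩ := IsAlgClosed.exists_pow_nat_eq
    (-(z 2 - z 3 / algebraMap F Ω ε) / (z 0 - z 1 / algebraMap F Ω ε))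
    (Nat.pow_pos (n := κ) hp.pos)
  refine ⟨z 0 - algebraMap F Ω c * (z 0 - z 1 / algebraMap F Ω ε),
    z 0 - z 1 / algebraMap F Ω ε,
    z 2 - algebraMap F Ω c * (z 2 - z 3 / algebraMap F Ω ε),
    z 2 - z 3 / algebraMap F Ω ε, μ, h0, hrel, ?_, ?_, ?_, ?_, hy2, ?_⟩
  · ring
  · have : algebraMap F Ω ε * (z 0 - algebraMap F Ω c * (z 0 - z 1 / algebraMap F Ω ε) +
        algebraMap F Ω c' * (z 0 - z 1 / algebraMap F Ω ε))
        = algebraMap F Ω ε * (z 0 - (algebraMap F Ω c - algebraMap F Ω c') *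
          (z 0 - z 1 / algebraMap F Ω ε)) := by ring
    rw [this, e2]
    field_simp
    ring
  · ring
  · have : algebraMap F Ω ε * (z 2 - algebraMap F Ω c * (z 2 - z 3 / algebraMap F Ω ε) +
        algebraMap F Ω c' * (z 2 - z 3 / algebraMap F Ω ε))
        = algebraMap F Ω ε * (z 2 - (algebraMap F Ω c - algebraMap F Ω c') *
          (z 2 - z 3 / algebraMap F Ω ε)) := by ring
    rw [this, e2]
    field_simp
    ring
  · rw [hμ]
    exact div_mul_cancel₀ _ hy2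

/-- The coordinate `e = (y₁ - μ y₃) / y₂`, the coordinates `y₃ / y₂` and `z_i / y₂`, `i ≥ 4`, satisfy a
relation which is linear in `y₃ / y₂`. Proof: by `HermConst.identity` the equation is
`y₁ ^ Q y₂ + y₁ y₂ ^ Q + y₃ ^ Q y₄ + y₃ y₄ ^ Q + ∑_{i ≥ 4} z_i ^ (Q + 1) = 0`; divide by `y₂ ^ (Q + 1)`
and insert `y₄ / y₂ = -μ ^ Q`, `y₁ / y₂ = e + μ (y₃ / y₂)`; `(-1) ^ Q = -1` in characteristic `p`. -/
theorem HermData.relation [Fact p.Prime] [CharP F p] {ε c c' : F}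
    (hc : HermConst p κ ε c c') {z : Fin (k + 4) → Ω} {y₁ y₂ y₃ y₄ μ : Ω}
    (h : HermData p κ ε c c' z y₁ y₂ y₃ y₄ μ) :
    ((y₁ - μ * y₃) / y₂) ^ (p ^ κ) + (y₁ - μ * y₃) / y₂ +
      (μ - (μ ^ (p ^ κ)) ^ (p ^ κ)) * (y₃ / y₂) +
      ∑ i : Fin k, (z (Fin.natAdd 4 i |>.cast (Nat.add_comm 4 k)) / y₂) ^ (p ^ κ + 1) = 0 := by
  have hchar : CharP Ω p := charP_of_injective_algebraMap (algebraMap F Ω).injective p
  have hp : p.Prime := Fact.out
  have hy := h.y₂_ne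
  have hsum : ∑ i, z i ^ (p ^ κ + 1) = z 0 ^ (p ^ κ + 1) + z 1 ^ (p ^ κ + 1)
      + z 2 ^ (p ^ κ + 1) + z 3 ^ (p ^ κ + 1)
      + ∑ i : Fin k, z (Fin.natAdd 4 i |>.cast (Nat.add_comm 4 k)) ^ (p ^ κ + 1) := by
    have h1 : ∑ i, z i ^ (p ^ κ + 1)
        = ∑ i : Fin (4 + k), z (i.cast (Nat.add_comm 4 k)) ^ (p ^ κ + 1) :=
      (Equiv.sum_comp (finCongr (Nat.add_comm 4 k)) (fun i => z i ^ (p ^ κ + 1))).symm
    rw [h1, Fin.sum_univ_add]
    congr 1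
    rw [Fin.sum_univ_four]
    rfl
  have hid1 := hc.identity y₁ y₂
  have hid2 := hc.identity y₃ y₄
  rw [← h.e₀, ← h.e₁] at hid1
  rw [← h.e₂, ← h.e₃] at hid2
  have hrel := h.rel
  rw [hsum] at hrel
  have hy4 : y₄ = -(μ ^ (p ^ κ)) * y₂ := by linear_combination h.hμ
  have hneg : (-1 : Ω) ^ (p ^ κ) = -1 := by
    have := sub_pow_char_pow (R := Ω) (p := p) (n := κ) 0 1
    rw [zero_sub, one_pow, zero_pow (Nat.pow_pos hp.pos).ne', zero_sub] at this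
    exact this
  have hy4Q : y₄ ^ (p ^ κ) = -((μ ^ (p ^ κ)) ^ (p ^ κ)) * y₂ ^ (p ^ κ) := by
    rw [hy4, mul_pow, neg_pow, hneg]
    ring
  simp only [div_pow]
  rw [← Finset.sum_div, sub_pow_char_pow, mul_pow]
  set S := ∑ i : Fin k, z (Fin.natAdd 4 i |>.cast (Nat.add_comm 4 k)) ^ (p ^ κ + 1)
  have hmain : y₁ ^ (p ^ κ) * y₂ + y₁ * y₂ ^ (p ^ κ) + (y₃ ^ (p ^ κ) * y₄ + y₃ * y₄ ^ (p ^ κ))
      + S = 0 := by
    linear_combination hrel - hid1 - hid2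
  rw [hy4Q, hy4] at hmain
  have hyQ : y₂ ^ (p ^ κ) ≠ 0 := pow_ne_zero _ hy
  rw [pow_succ]
  field_simp
  linear_combination hmain

/-- All coordinates lie in the field generated by `μ`, `e`, `y₃ / y₂` and the `z_i / y₂`, `i ≥ 4`. Proof:
`y₁ / y₂ = e + μ (y₃ / y₂)`, `1 / y₂ = z_0 / y₂ = y₁ / y₂ + c`. -/
theorem HermData.mem {ε c c' : F}
    {z : Fin (k + 4) → Ω} {y₁ y₂ y₃ y₄ μ : Ω}
    (h : HermData p κ ε c c' z y₁ y₂ y₃ y₄ μ) (T : IntermediateField F Ω) (h1 : μ ∈ T)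
    (h2 : (y₁ - μ * y₃) / y₂ ∈ T) (h3 : y₃ / y₂ ∈ T)
    (h4 : ∀ i : Fin k, z (Fin.natAdd 4 i |>.cast (Nat.add_comm 4 k)) / y₂ ∈ T) (i : Fin (k + 4)) :
    z i ∈ T := by
  have hy := h.y₂_ne
  have hyi : y₂⁻¹ ∈ T := by
    have h5 : y₂⁻¹ = ((y₁ - μ * y₃) / y₂ + μ * (y₃ / y₂)) + algebraMap F Ω c := by
      have h6 : (1 : Ω) = y₁ + algebraMap F Ω c * y₂ := h.z_zero.symm.trans h.e₀
      field_simp
      linear_combination h6
    rw [h5]
    exact T.add_mem (T.add_mem h2 (T.mul_mem h1 h3)) (T.algebraMap_mem c)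
  have hyT : y₂ ∈ T := by
    have := T.inv_mem hyi
    rwa [inv_inv] at this
  have hy3 : y₃ ∈ T := by
    have := T.mul_mem h3 hyT
    rwa [div_mul_cancel₀ _ hy] at this
  have hy1 : y₁ ∈ T := by
    have h5 : y₁ = (y₁ - μ * y₃) / y₂ * y₂ + μ * y₃ := by
      rw [div_mul_cancel₀ _ hy]
      ring
    rw [h5]
    exact T.add_mem (T.mul_mem h2 hyT) (T.mul_mem h1 hy3)
  have hy4 : y₄ ∈ T := by
    have h5 : y₄ = -(μ ^ (p ^ κ) * y₂) := by linear_combination h.hμ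
    rw [h5]
    exact T.neg_mem (T.mul_mem (pow_mem h1 _) hyT)
  have hlt : ∀ i : Fin 4, z ((Fin.castAdd k i).cast (Nat.add_comm 4 k)) ∈ T := by
    intro i
    fin_cases i
    · change z 0 ∈ T
      rw [h.z_zero]
      exact T.one_mem
    · change z 1 ∈ T
      rw [h.e₁]
      exact T.mul_mem (T.algebraMap_mem _) (T.add_mem hy1 (T.mul_mem (T.algebraMap_mem _) hyT))
    · change z 2 ∈ T
      rw [h.e₂]
      exact T.add_mem hy3 (T.mul_mem (T.algebraMap_mem _) hy4)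
    · change z 3 ∈ T
      rw [h.e₃]
      exact T.mul_mem (T.algebraMap_mem _) (T.add_mem hy3 (T.mul_mem (T.algebraMap_mem _) hy4))
  have hge : ∀ i : Fin k, z (Fin.natAdd 4 i |>.cast (Nat.add_comm 4 k)) ∈ T := by
    intro i
    have := T.mul_mem (h4 i) hyT
    rwa [div_mul_cancel₀ _ hy] at this
  have hall : ∀ i : Fin (4 + k), z (i.cast (Nat.add_comm 4 k)) ∈ T :=
    fun i => Fin.addCases (motive := fun i => z (i.cast (Nat.add_comm 4 k)) ∈ T) hlt hge i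
  exact hall (i.cast (Nat.add_comm k 4))

/-- Conversely. -/
theorem HermData.mem' {ε c c' : F} (hc : HermConst p κ ε c c')
    {z : Fin (k + 4) → Ω} {y₁ y₂ y₃ y₄ μ : Ω}
    (h : HermData p κ ε c c' z y₁ y₂ y₃ y₄ μ) (T : IntermediateField F Ω) (h1 : μ ∈ T)
    (hz : ∀ i, z i ∈ T) :
    (y₁ - μ * y₃) / y₂ ∈ T ∧ y₃ / y₂ ∈ T ∧ μ ^ (p ^ κ) ∈ IntermediateField.adjoin F (Set.range z) ∧
      ∀ i : Fin k, z (Fin.natAdd 4 i |>.cast (Nat.add_comm 4 k)) / y₂ ∈ T := by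
  have hy := h.y₂_ne
  have hε : ε ≠ 0 := by
    intro h
    have := hc.hε
    rw [h, zero_pow (Nat.succ_ne_zero _)] at this
    have h2 : (1 : F) = 0 := by linear_combination this
    exact one_ne_zero h2
  have hε' : algebraMap F Ω ε ≠ 0 := by
    rw [Ne, map_eq_zero]
    exact hε
  have e2 : algebraMap F Ω c - algebraMap F Ω c' = 1 := by
    rw [← map_sub, hc.sub_eq, map_one]
  have hgen : ∀ S : IntermediateField F Ω, (∀ i, z i ∈ S) →
      y₁ ∈ S ∧ y₂ ∈ S ∧ y₃ ∈ S ∧ y₄ ∈ S := by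
    intro S hS
    have hS2 : y₂ ∈ S := by
      have h5 : y₂ = z 0 - z 1 / algebraMap F Ω ε := by
        rw [h.e₀, h.e₁, mul_div_cancel_left₀ _ hε']
        linear_combination (-y₂) * e2
      rw [h5]
      exact S.sub_mem (hS 0) (S.div_mem (hS 1) (S.algebraMap_mem _))
    have hS4 : y₄ ∈ S := by
      have h5 : y₄ = z 2 - z 3 / algebraMap F Ω ε := by
        rw [h.e₂, h.e₃, mul_div_cancel_left₀ _ hε']
        linear_combination (-y₄) * e2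
      rw [h5]
      exact S.sub_mem (hS 2) (S.div_mem (hS 3) (S.algebraMap_mem _))
    refine ⟨?_, hS2, ?_, hS4⟩
    · have h5 : y₁ = z 0 - algebraMap F Ω c * y₂ := by rw [h.e₀]; ring
      rw [h5]
      exact S.sub_mem (hS 0) (S.mul_mem (S.algebraMap_mem _) hS2)
    · have h5 : y₃ = z 2 - algebraMap F Ω c * y₄ := by rw [h.e₂]; ring
      rw [h5]
      exact S.sub_mem (hS 2) (S.mul_mem (S.algebraMap_mem _) hS4)
  obtain ⟨t1, t2, t3, t4⟩ := hgen T hz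
  obtain ⟨a1, a2, a3, a4⟩ := hgen (IntermediateField.adjoin F (Set.range z))
    (fun i => IntermediateField.subset_adjoin F _ ⟨i, rfl⟩)
  refine ⟨T.div_mem (T.sub_mem t1 (T.mul_mem h1 t3)) t2, T.div_mem t3 t2, ?_,
    fun i => T.div_mem (hz _) t2⟩
  have h5 : μ ^ (p ^ κ) = -y₄ / y₂ := by
    rw [eq_div_iff hy]
    exact h.hμ
  rw [h5]
  exact (IntermediateField.adjoin F (Set.range z)).div_mem
    ((IntermediateField.adjoin F (Set.range z)).neg_mem a4) a2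

end UnrG
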