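import Pool.Agent.Lib.MP_859dd5_ag.PF.H2
import Pool.Agent.Lib.MP_859dd5_ag.PF.C1

/-!
# The Hermitian cover of a diagonal hypersurface
-/

namespace UnrG

universe u v w

open Polynomial Finset
open scoped Classical

variable {𝔽 : Type w} [Field 𝔽] [Fintype 𝔽] (b : Base 𝔽)

variable {F L : Type u} [Field F] [Field L] [Algebra F L] {r k : ℕ}
  {t : Fin r → L} {a x : Fin (k + 2 + 2) → L}

/-- Coordinates of the Hermitian cover. Hint: `Ω` is algebraically closed; `a 0 * x 0 ^ N / a 0 = 1`;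
the sum is the image of `(∑ a i x i ^ N) / a 0 = 0`. -/
theorem exists_cover (h : DiagData b t (F := F) a x) {Ω : Type u} [Field Ω] [IsAlgClosed Ω]
    [Algebra L Ω] (M : ℕ) (hM : 0 < M) :
    ∃ z : Fin (k + 4) → Ω, z 0 = 1 ∧
      (∀ i, z i ^ M = algebraMap L Ω (a i * x i ^ b.N / a 0)) ∧ ∑ i, z i ^ M = 0 := by
  have hroot : ∀ i : Fin (k + 4), ∃ w : Ω, w ^ M = algebraMap L Ω (a i * x i ^ b.N / a 0) :=
    fun i => IsAlgClosed.exists_pow_nat_eq _ hM
  choose w hw using hroot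
  have h0 : a 0 * x 0 ^ b.N / a 0 = 1 := by
    rw [h.x_zero, one_pow, mul_one, div_self (h.a_ne 0)]
  have hz : ∀ i : Fin (k + 4), (Function.update w 0 1 : Fin (k + 4) → Ω) i ^ M =
      algebraMap L Ω (a i * x i ^ b.N / a 0) := by
    intro i
    by_cases hi : i = 0
    · subst hi
      rw [Function.update_self, one_pow]
      have h1 := congrArg (algebraMap L Ω) h0
      rw [map_one] at h1
      exact h1.symm
    · rw [Function.update_of_ne hi]
      exact hw i
  refine ⟨Function.update w 0 1, Function.update_self _ _ _, hz, ?_⟩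
  have h2 : ∑ i : Fin (k + 4), algebraMap L Ω (a i * x i ^ b.N / a 0) = 0 := by
    rw [← map_sum, ← sum_div]
    have h3 : ∑ i : Fin (k + 4), a i * x i ^ b.N = 0 := h.rel
    rw [h3, zero_div, map_zero]
  rw [← h2]
  exact sum_congr rfl fun i _ => hz i

/-- A power of a member of an algebraically independent family is not in the field generated by
the other ones. -/
private lemma H3_pow_notMem {κ : Type*} {g : κ → L} (hg : AlgebraicIndependent F g) {s : Set κ}
    {i : κ} (hi : i ∉ s) {N : ℕ} (hN : 0 < N) : g i ^ N ∉ IntermediateField.adjoin F (g '' s) := by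
  intro hmem
  rw [IntermediateField.mem_adjoin_iff_div] at hmem
  obtain ⟨p, hp, q, hq, hpq⟩ := hmem
  have htr := hg.transcendental_adjoin hi
  have hq0 : q ≠ 0 := by
    rintro rfl
    rw [div_zero] at hpq
    exact hg.ne_zero i (pow_eq_zero_iff hN.ne' |>.1 hpq)
  apply htr
  refine ⟨C (⟨q, hq⟩ : Algebra.adjoin F (g '' s)) * X ^ N - C ⟨p, hp⟩, ?_, ?_⟩
  · intro h0
    have h1 := congrArg (fun P => coeff P N) h0
    simp only [coeff_sub, coeff_C_mul, coeff_X_pow_self, mul_one, coeff_zero, coeff_C,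
      if_neg hN.ne', sub_zero] at h1
    exact hq0 (congrArg Subtype.val h1)
  · rw [map_sub, map_mul, map_pow, aeval_C, aeval_C, aeval_X, hpq]
    change q * (p / q) - p = 0
    field_simp
    ring

/-- A coordinate is not constant. Hint: if `z 1 = c` is the image of a constant then
`a 1 * x 1 ^ N = c ^ M * a 0`, so `x 1` is algebraic over `F(t)`, against `h.ind`; see the lemma
`pow_notMem` in `K/D7.lean`. -/
theorem cover_ne_const (h : DiagData b t (F := F) a x) {Ω : Type u} [Field Ω] [Algebra F Ω]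
    [Algebra L Ω] [IsScalarTower F L Ω] {M : ℕ} (hM : 0 < M) {z : Fin (k + 4) → Ω}
    (hz : ∀ i, z i ^ M = algebraMap L Ω (a i * x i ^ b.N / a 0)) (c : F) :
    z 1 ≠ algebraMap F Ω c := by
  intro hc
  have h1 := hz 1
  rw [hc, ← map_pow, IsScalarTower.algebraMap_apply F L Ω] at h1
  have h2 : algebraMap F L (c ^ M) = a 1 * x 1 ^ b.N / a 0 := (algebraMap L Ω).injective h1
  let g : Fin r ⊕ Fin (k + 2) → L := Sum.elim t (fun i : Fin (k + 2) => x i.castSucc.succ)
  have hk : (Sum.inr 0 : Fin r ⊕ Fin (k + 2)) ∉ Set.range (Sum.inl : Fin r → Fin r ⊕ Fin (k + 2)) := by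
    simp
  refine H3_pow_notMem h.ind hk b.N_pos ?_
  have h3 : g (Sum.inr 0) = x 1 := rfl
  change g (Sum.inr 0) ^ b.N ∈ IntermediateField.adjoin F (g '' Set.range Sum.inl)
  have h4 : g '' Set.range (Sum.inl : Fin r → Fin r ⊕ Fin (k + 2)) = Set.range t := by
    rw [← Set.range_comp]
    rfl
  rw [h3, h4]
  have h5 : x 1 ^ b.N = algebraMap F L (c ^ M) * a 0 / a 1 := by
    have h6 := h.a_ne 1
    have h7 := h.a_ne 0
    rw [h2]
    field_simp
  rw [h5]
  exact div_mem (mul_mem (IntermediateField.algebraMap_mem _ _) (h.a_mem 0)) (h.a_mem 1)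

/-- The family `t`, `μ`, `e`, `y₃ / y₂`, `z_i / y₂` (`i ≥ 4`) of `r + n + 1` elements generates a field
over which `Ω` is algebraic. Hint: `HermData.mem`, `isAlgebraic_of_mem`
(`x i ^ N = z i ^ M * a 0 / a i`, `a i ∈ F(t)`). -/
theorem cover_isAlgebraic (h : DiagData b t (F := F) a x) {Ω : Type u} [Field Ω] [Algebra F Ω]
    [Algebra L Ω] [IsScalarTower F L Ω] [Algebra.IsAlgebraic L Ω] {p κ : ℕ}
    {z : Fin (k + 4) → Ω}
    (hz : ∀ i, z i ^ (p ^ κ + 1) = algebraMap L Ω (a i * x i ^ b.N / a 0)) {ε c c' : F}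
    {y₁ y₂ y₃ y₄ μ : Ω} (hd : HermData p κ ε c c' z y₁ y₂ y₃ y₄ μ) (T : IntermediateField F Ω)
    (ht : ∀ i, algebraMap L Ω (t i) ∈ T) (h1 : μ ∈ T) (h2 : (y₁ - μ * y₃) / y₂ ∈ T)
    (h3 : y₃ / y₂ ∈ T)
    (h4 : ∀ i : Fin k, z (Fin.natAdd 4 i |>.cast (Nat.add_comm 4 k)) / y₂ ∈ T) :
    Algebra.IsAlgebraic T Ω := by
  refine isAlgebraic_of_mem b h T ht (fun i => ?_)
  have ha : ∀ i, algebraMap L Ω (a i) ∈ T := by
    intro i
    have h5 : IntermediateField.adjoin F (Set.range t) ≤ T.comap (IsScalarTower.toAlgHom F L Ω) := by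
      rw [IntermediateField.adjoin_le_iff]
      rintro _ ⟨j, rfl⟩
      exact ht j
    exact h5 (h.a_mem i)
  have h6 : z i ∈ T := hd.mem T h1 h2 h3 h4 i
  have h7 : algebraMap L Ω (x i ^ b.N) = z i ^ (p ^ κ + 1) * algebraMap L Ω (a 0) /
      algebraMap L Ω (a i) := by
    rw [hz i, ← map_mul, ← map_div₀]
    congr 1
    have h8 := h.a_ne i
    have h9 := h.a_ne 0
    field_simp
  rw [h7]
  exact div_mem (mul_mem (pow_mem h6 _) (ha 0)) (ha i)

end UnrG
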