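import Pool.Agent.Lib.MP_859dd5_ag.PF.H3

/-!
# The Hermitian cover is purely inseparably unirational
-/

namespace UnrG

universe u v w

open Polynomial Finset
open scoped Classical

variable {𝔽 : Type w} [Field 𝔽] [Fintype 𝔽] (b : Base 𝔽)

variable {F L : Type u} [Field F] [Field L] [Algebra F L] {r k : ℕ}
  {t : Fin r → L} {a x : Fin (k + 2 + 2) → L}

/-- The parameters: `t`, `μ`, `e = (y₁ - μ y₃) / y₂`, and `z_i / y₂` for `i ≥ 4`. -/
noncomputable def hermPar (F : Type u) {L Ω : Type u} [Field F] [Field L] [Field Ω] [Algebra F L]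
    [Algebra L Ω] {r k : ℕ} (t : Fin r → L) (z : Fin (k + 4) → Ω) (y₁ y₂ y₃ μ : Ω) :
    Fin r ⊕ (Fin 2 ⊕ Fin k) → Ω :=
  Sum.elim (fun i => algebraMap L Ω (t i)) (Sum.elim ![μ, (y₁ - μ * y₃) / y₂]
    (fun i => z (Fin.natAdd 4 i |>.cast (Nat.add_comm 4 k)) / y₂))

/-- Proof: suppose `μ = μ ^ (Q ^ 2)`; then `μ` lies in `F` (`FixSp F p (2 κ)`), and the
`r + n` elements `t`, `e`, `y₃ / y₂`, `z_i / y₂` generate a field over which `Ω` is algebraic
(`cover_isAlgebraic`), so they are independent (`algebraicIndependent_of_count`), but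
`e ^ Q + e + ∑ (z_i / y₂) ^ (Q + 1) = 0` by `HermData.relation`: this is a nontrivial relation (`e` would
be algebraic over the field generated by the `z_i / y₂`). -/
theorem mu_ne (h : DiagData b t (F := F) a x) {Ω : Type u} [Field Ω]
    [Algebra F Ω] [Algebra L Ω] [IsScalarTower F L Ω] [Algebra.IsAlgebraic L Ω] {p κ : ℕ}
    [FixSp F p (2 * κ)] [Fact p.Prime] [CharP F p] (hκ : 0 < κ) {z : Fin (k + 4) → Ω}
    (hz : ∀ i, z i ^ (p ^ κ + 1) = algebraMap L Ω (a i * x i ^ b.N / a 0)) {ε c c' : F}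
    (hc : HermConst p κ ε c c') {y₁ y₂ y₃ y₄ μ : Ω}
    (hd : HermData p κ ε c c' z y₁ y₂ y₃ y₄ μ) : μ - (μ ^ (p ^ κ)) ^ (p ^ κ) ≠ 0 := by
  intro hμ
  have hp : p.Prime := Fact.out
  have hS : FixSp F p (2 * κ) := inferInstance
  obtain ⟨m, hm⟩ := hS.mem_range (μ := μ) hp (by omega) (by
    have h1 : p ^ (2 * κ) = p ^ κ * p ^ κ := by rw [two_mul, pow_add]
    rw [h1, pow_mul]
    exact (sub_eq_zero.1 hμ).symm)
  let v : Fin r ⊕ (Fin 2 ⊕ Fin k) → Ω :=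
    Sum.elim (fun i => algebraMap L Ω (t i)) (Sum.elim ![y₃ / y₂, (y₁ - μ * y₃) / y₂]
      (fun i => z (Fin.natAdd 4 i |>.cast (Nat.add_comm 4 k)) / y₂))
  have hvm : ∀ i, v i ∈ IntermediateField.adjoin F (Set.range v) := fun i =>
    IntermediateField.subset_adjoin F _ ⟨i, rfl⟩
  have hal : Algebra.IsAlgebraic (IntermediateField.adjoin F (Set.range v)) Ω := by
    refine cover_isAlgebraic b h hz hd _ (fun i => hvm (Sum.inl i)) ?_ (hvm (Sum.inr (Sum.inl 1)))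
      (hvm (Sum.inr (Sum.inl 0))) (fun i => hvm (Sum.inr (Sum.inr i)))
    rw [← hm]
    exact IntermediateField.algebraMap_mem _ _
  have hind : AlgebraicIndependent F v := by
    refine algebraicIndependent_of_count b h ?_ v hal
    simp only [Fintype.card_sum, Fintype.card_fin]
    omega
  have hrel := hd.relation hc
  rw [hμ, zero_mul, add_zero] at hrel
  let P : MvPolynomial (Fin r ⊕ (Fin 2 ⊕ Fin k)) F :=
    MvPolynomial.X (Sum.inr (Sum.inl 1)) ^ (p ^ κ) + MvPolynomial.X (Sum.inr (Sum.inl 1)) +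
      ∑ i : Fin k, MvPolynomial.X (Sum.inr (Sum.inr i)) ^ (p ^ κ + 1)
  have hP : MvPolynomial.aeval v P = 0 := by
    simp only [P, map_add, map_pow, map_sum, MvPolynomial.aeval_X]
    exact hrel
  have hP0 : P = 0 := (injective_iff_map_eq_zero _).1 hind P hP
  have hd1 : MvPolynomial.pderiv (Sum.inr (Sum.inl 1)) P = 1 := by
    simp only [P, map_add, map_sum, Derivation.leibniz_pow, MvPolynomial.pderiv_X_self]
    have h5 : ∀ i : Fin k, MvPolynomial.pderiv (R := F)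
        (Sum.inr (Sum.inl 1) : Fin r ⊕ (Fin 2 ⊕ Fin k)) (MvPolynomial.X (Sum.inr (Sum.inr i))) = 0 := by
      intro i
      apply MvPolynomial.pderiv_X_of_ne
      simp
    simp only [h5, smul_zero, sum_const_zero, add_zero]
    have h6 : (p ^ κ) • (((MvPolynomial.X (Sum.inr (Sum.inl 1)) :
        MvPolynomial (Fin r ⊕ (Fin 2 ⊕ Fin k)) F) ^ (p ^ κ - 1)) •
        (1 : MvPolynomial (Fin r ⊕ (Fin 2 ⊕ Fin k)) F)) = 0 := by
      rw [nsmul_eq_mul]
      have h7 : ((p ^ κ : ℕ) : MvPolynomial (Fin r ⊕ (Fin 2 ⊕ Fin k)) F) = 0 := by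
        rw [CharP.cast_eq_zero_iff (MvPolynomial (Fin r ⊕ (Fin 2 ⊕ Fin k)) F) p]
        exact dvd_pow_self p hκ.ne'
      rw [h7, zero_mul]
    rw [h6, zero_add]
  rw [hP0, map_zero] at hd1
  exact zero_ne_one hd1

/-- Hint: `HermData.relation` and `mu_ne` give `y₃ / y₂`. -/
theorem y3_mem (h : DiagData b t (F := F) a x) {Ω : Type u} [Field Ω]
    [Algebra F Ω] [Algebra L Ω] [IsScalarTower F L Ω] [Algebra.IsAlgebraic L Ω] {p κ : ℕ}
    [FixSp F p (2 * κ)] [Fact p.Prime] [CharP F p] (hκ : 0 < κ) {z : Fin (k + 4) → Ω}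
    (hz : ∀ i, z i ^ (p ^ κ + 1) = algebraMap L Ω (a i * x i ^ b.N / a 0)) {ε c c' : F}
    (hc : HermConst p κ ε c c') {y₁ y₂ y₃ y₄ μ : Ω}
    (hd : HermData p κ ε c c' z y₁ y₂ y₃ y₄ μ) :
    y₃ / y₂ ∈ IntermediateField.adjoin F (Set.range (hermPar F t z y₁ y₂ y₃ μ)) := by
  have hvm : ∀ i, hermPar F t z y₁ y₂ y₃ μ i ∈
      IntermediateField.adjoin F (Set.range (hermPar F t z y₁ y₂ y₃ μ)) := fun i =>
    IntermediateField.subset_adjoin F _ ⟨i, rfl⟩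
  have h1 : μ ∈ IntermediateField.adjoin F (Set.range (hermPar F t z y₁ y₂ y₃ μ)) :=
    hvm (Sum.inr (Sum.inl 0))
  have h2 : (y₁ - μ * y₃) / y₂ ∈ IntermediateField.adjoin F (Set.range (hermPar F t z y₁ y₂ y₃ μ)) :=
    hvm (Sum.inr (Sum.inl 1))
  have h4 : ∀ i : Fin k, z (Fin.natAdd 4 i |>.cast (Nat.add_comm 4 k)) / y₂ ∈
      IntermediateField.adjoin F (Set.range (hermPar F t z y₁ y₂ y₃ μ)) :=
    fun i => hvm (Sum.inr (Sum.inr i))
  have hne := mu_ne b h hκ hz hc hd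
  have hrel := hd.relation hc
  have h5 : y₃ / y₂ = -(((y₁ - μ * y₃) / y₂) ^ (p ^ κ) + (y₁ - μ * y₃) / y₂ +
      ∑ i : Fin k, (z (Fin.natAdd 4 i |>.cast (Nat.add_comm 4 k)) / y₂) ^ (p ^ κ + 1)) /
      (μ - (μ ^ (p ^ κ)) ^ (p ^ κ)) := by
    rw [eq_div_iff hne]
    linear_combination hrel
  rw [h5]
  exact div_mem (neg_mem (add_mem (add_mem (pow_mem h2 _) h2) (sum_mem fun i _ => pow_mem (h4 i) _)))
    (sub_mem h1 (pow_mem (pow_mem h1 _) _))

/-- Hint: `y3_mem`, `HermData.mem`. -/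
theorem z_mem (h : DiagData b t (F := F) a x) {Ω : Type u} [Field Ω]
    [Algebra F Ω] [Algebra L Ω] [IsScalarTower F L Ω] [Algebra.IsAlgebraic L Ω] {p κ : ℕ}
    [FixSp F p (2 * κ)] [Fact p.Prime] [CharP F p] (hκ : 0 < κ) {z : Fin (k + 4) → Ω}
    (hz : ∀ i, z i ^ (p ^ κ + 1) = algebraMap L Ω (a i * x i ^ b.N / a 0)) {ε c c' : F}
    (hc : HermConst p κ ε c c') {y₁ y₂ y₃ y₄ μ : Ω}
    (hd : HermData p κ ε c c' z y₁ y₂ y₃ y₄ μ) (i : Fin (k + 4)) :
    z i ∈ IntermediateField.adjoin F (Set.range (hermPar F t z y₁ y₂ y₃ μ)) := by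
  have hvm : ∀ i, hermPar F t z y₁ y₂ y₃ μ i ∈
      IntermediateField.adjoin F (Set.range (hermPar F t z y₁ y₂ y₃ μ)) := fun i =>
    IntermediateField.subset_adjoin F _ ⟨i, rfl⟩
  exact hd.mem _ (hvm (Sum.inr (Sum.inl 0))) (hvm (Sum.inr (Sum.inl 1)))
    (y3_mem b h hκ hz hc hd) (fun i => hvm (Sum.inr (Sum.inr i))) i

/-- Hint: `cover_isAlgebraic`, `algebraicIndependent_of_count` (`r + 2 + k` elements). -/
theorem hermPar_independent (h : DiagData b t (F := F) a x) {Ω : Type u}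
    [Field Ω] [Algebra F Ω] [Algebra L Ω] [IsScalarTower F L Ω] [Algebra.IsAlgebraic L Ω]
    {p κ : ℕ} [FixSp F p (2 * κ)] [Fact p.Prime] [CharP F p] (hκ : 0 < κ) {z : Fin (k + 4) → Ω}
    (hz : ∀ i, z i ^ (p ^ κ + 1) = algebraMap L Ω (a i * x i ^ b.N / a 0)) {ε c c' : F}
    (hc : HermConst p κ ε c c') {y₁ y₂ y₃ y₄ μ : Ω}
    (hd : HermData p κ ε c c' z y₁ y₂ y₃ y₄ μ) :
    AlgebraicIndependent F (hermPar F t z y₁ y₂ y₃ μ) := by
  have hvm : ∀ i, hermPar F t z y₁ y₂ y₃ μ i ∈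
      IntermediateField.adjoin F (Set.range (hermPar F t z y₁ y₂ y₃ μ)) := fun i =>
    IntermediateField.subset_adjoin F _ ⟨i, rfl⟩
  refine algebraicIndependent_of_count b h ?_ _ ?_
  · simp only [Fintype.card_sum, Fintype.card_fin]
    omega
  · exact cover_isAlgebraic b h hz hd _ (fun i => hvm (Sum.inl i)) (hvm (Sum.inr (Sum.inl 0)))
      (hvm (Sum.inr (Sum.inl 1))) (y3_mem b h hκ hz hc hd) (fun i => hvm (Sum.inr (Sum.inr i)))

end UnrG
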