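import Pool.Agent.Lib.MP_859dd5_ag.PF.H3
import Pool.Agent.Lib.MP_859dd5_ag.Mg.G001

/-!
# The monomial lies in the Hermitian cover
-/

namespace UnrG

universe u v w

open Polynomial Finset
open scoped Classical

variable {𝔽 : Type w} [Field 𝔽] [Fintype 𝔽] (b : Base 𝔽)

variable {F L : Type u} [Field F] [Field L] [Algebra F L] {r k : ℕ}
  {t : Fin r → L} {a x : Fin (k + 2 + 2) → L}

private lemma H5_map_mem {Ω : Type u} [Field Ω] [Algebra F Ω] [Algebra L Ω]
    [IsScalarTower F L Ω] (T : IntermediateField F Ω) (S : Set L)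
    (hS : ∀ s ∈ S, algebraMap L Ω s ∈ T) {y : L} (hy : y ∈ IntermediateField.adjoin F S) :
    algebraMap L Ω y ∈ T := by
  have h1 : IntermediateField.adjoin F S ≤ T.comap (IsScalarTower.toAlgHom F L Ω) := by
    rw [IntermediateField.adjoin_le_iff]
    intro s hs
    exact hS s hs
  exact h1 hy

private lemma H5_root_mem {Ω : Type u} [Field Ω] [Algebra F Ω] {N : ℕ}
    (hN : 0 < N) {ζ : F} (hζ : IsPrimitiveRoot ζ N) {ω : Ω} (hω : ω ^ N = 1)
    (T : IntermediateField F Ω) : ω ∈ T := by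
  obtain ⟨c, rfl⟩ := mem_range_of_pow_eq_one hN hζ hω
  exact T.algebraMap_mem c

/-- Proof: `Q + 1 = N g`, `∑ (α i).val = N M`. Then
`(β * wmon) ^ N = ∏ (a i x i ^ N) ^ (α i).val = (a 0 ^ M * ∏ z i ^ (g (α i).val)) ^ N`, so
`β * wmon = ω a 0 ^ M ∏ z i ^ (g (α i).val)` with an `N`-th root of unity `ω`, which is a constant
(`hζ`); `β` and `a 0` lie in `F(t)`. -/
theorem wmon_mem_cover {ζ : F} (hζ : IsPrimitiveRoot ζ b.N)
    (h : DiagData b t (F := F) a x) {Ω : Type u} [Field Ω]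
    [Algebra F Ω] [Algebra L Ω] [IsScalarTower F L Ω] {M : ℕ} (hM : b.N ∣ M)
    {z : Fin (k + 4) → Ω} (hz : ∀ i, z i ^ M = algebraMap L Ω (a i * x i ^ b.N / a 0))
    {α : Fin (k + 2 + 2) → ZMod b.N} (hα : ∑ i, α i = 0) {β : L}
    (hβ : β ∈ IntermediateField.adjoin F (Set.range t))
    (hβN : ∏ i, a i ^ (α i).val = β ^ b.N) (T : IntermediateField F Ω)
    (ht : ∀ i, algebraMap L Ω (t i) ∈ T) (hzT : ∀ i, z i ∈ T) :
    algebraMap L Ω (wmon x α) ∈ T := by
  obtain ⟨g, rfl⟩ := hM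
  have hN := b.N_pos
  set φ := algebraMap L Ω with hφ
  have hdvd : b.N ∣ ∑ i, (α i).val := by
    rw [← ZMod.natCast_eq_zero_iff, Nat.cast_sum, ← hα]
    refine sum_congr rfl fun i _ => ?_
    rw [ZMod.natCast_zmod_val]
  obtain ⟨s, hs⟩ := hdvd
  have ha0 : φ (a 0) ≠ 0 := by
    rw [hφ, ne_eq, map_eq_zero]
    exact h.a_ne 0
  have hβ0 : β ≠ 0 := by
    intro h0
    rw [h0, zero_pow hN.ne'] at hβN
    exact (prod_ne_zero_iff.2 fun i _ => pow_ne_zero _ (h.a_ne i)) hβN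
  have hβ0' : φ β ≠ 0 := by
    rw [hφ, ne_eq, map_eq_zero]
    exact hβ0
  have hw0 : φ (wmon x α) ≠ 0 := by
    rw [hφ, ne_eq, map_eq_zero]
    exact prod_ne_zero_iff.2 fun i _ => pow_ne_zero _ (h.x_ne b i)
  have hzi : ∀ i, φ (a i * x i ^ b.N) = z i ^ (b.N * g) * φ (a 0) := by
    intro i
    rw [hz i, map_div₀, div_mul_cancel₀ _ ha0]
  set P : Ω := φ (a 0) ^ s * ∏ i, z i ^ (g * (α i).val) with hP
  have key : (φ β * φ (wmon x α)) ^ b.N = P ^ b.N := by
    have e1 : (φ β * φ (wmon x α)) ^ b.N = ∏ i, φ (a i * x i ^ b.N) ^ (α i).val := by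
      rw [mul_pow, ← map_pow, ← map_pow, ← hβN]
      unfold wmon
      rw [← prod_pow, map_prod, map_prod, ← prod_mul_distrib]
      refine prod_congr rfl fun i _ => ?_
      rw [← map_mul, ← map_pow]
      congr 1
      rw [mul_pow, ← pow_mul, ← pow_mul, mul_comm (α i).val b.N]
    rw [e1, hP, mul_pow, ← prod_pow]
    have e2 : (φ (a 0) ^ s) ^ b.N = ∏ i, φ (a 0) ^ (α i).val := by
      rw [prod_pow_eq_pow_sum, hs, ← pow_mul, mul_comm s b.N]
    rw [e2, ← prod_mul_distrib]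
    refine prod_congr rfl fun i _ => ?_
    rw [hzi i, mul_pow, mul_comm, ← pow_mul, ← pow_mul]
    congr 2
    ring
  have hPne : P ≠ 0 := by
    intro h0
    rw [h0, zero_pow hN.ne'] at key
    exact mul_ne_zero hβ0' hw0 (pow_eq_zero_iff hN.ne' |>.1 key)
  have hω : (φ β * φ (wmon x α) / P) ^ b.N = 1 := by
    rw [div_pow, key, div_self (pow_ne_zero _ hPne)]
  have hωT := H5_root_mem hN hζ hω T
  have hmt : ∀ s ∈ Set.range t, algebraMap L Ω s ∈ T := by
    rintro _ ⟨i, rfl⟩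
    exact ht i
  have haT : ∀ i, φ (a i) ∈ T := fun i => H5_map_mem T _ hmt (h.a_mem i)
  have hβT : φ β ∈ T := H5_map_mem T _ hmt hβ
  have hPT : P ∈ T := by
    refine mul_mem (pow_mem (haT 0) _) (prod_mem fun i _ => pow_mem (hzT i) _)
  have e : φ (wmon x α) = (φ β * φ (wmon x α) / P) * P / φ β := by
    rw [div_mul_cancel₀ _ hPne, mul_comm (φ β), mul_div_assoc, div_self hβ0', mul_one]
  rw [e]
  exact div_mem (mul_mem hωT hPT) hβT

/-- Hence the monomial subfield is contained in the cover. Hint: `x i ^ N = z i ^ M * a 0 / a i`. -/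
theorem fieldA_le_cover {ζ : F} (hζ : IsPrimitiveRoot ζ b.N)
    (h : DiagData b t (F := F) a x) {Ω : Type u} [Field Ω]
    [Algebra F Ω] [Algebra L Ω] [IsScalarTower F L Ω] {M : ℕ} (hM : b.N ∣ M)
    {z : Fin (k + 4) → Ω} (hz : ∀ i, z i ^ M = algebraMap L Ω (a i * x i ^ b.N / a 0))
    {α : Fin (k + 2 + 2) → ZMod b.N} (hα : ∑ i, α i = 0) {β : L}
    (hβ : β ∈ IntermediateField.adjoin F (Set.range t))
    (hβN : ∏ i, a i ^ (α i).val = β ^ b.N) (T : IntermediateField F Ω)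
    (ht : ∀ i, algebraMap L Ω (t i) ∈ T) (hzT : ∀ i, z i ∈ T) {e : L}
    (he : e ∈ fieldA b F t x α) : algebraMap L Ω e ∈ T := by
  refine H5_map_mem T _ ?_ he
  have hmt : ∀ s ∈ Set.range t, algebraMap L Ω s ∈ T := by
    rintro _ ⟨i, rfl⟩
    exact ht i
  have haT : ∀ i, algebraMap L Ω (a i) ∈ T := fun i => H5_map_mem T _ hmt (h.a_mem i)
  have hane : ∀ i, algebraMap L Ω (a i) ≠ 0 := by
    intro i
    rw [ne_eq, map_eq_zero]
    exact h.a_ne i
  rintro s ((⟨i, rfl⟩ | ⟨i, rfl⟩) | hs)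
  · exact ht i
  · have e1 : algebraMap L Ω (x i ^ b.N) =
        z i ^ M * algebraMap L Ω (a 0) / algebraMap L Ω (a i) := by
      rw [hz i, ← map_mul, ← map_div₀]
      congr 1
      have h0 := h.a_ne 0
      have hi := h.a_ne i
      field_simp
    change algebraMap L Ω (x i ^ b.N) ∈ T
    rw [e1]
    exact div_mem (mul_mem (pow_mem (hzT i) _) (haT 0)) (haT i)
  · rw [Set.mem_singleton_iff] at hs
    subst hs
    exact wmon_mem_cover b hζ h hM hz hα hβ hβN T ht hzT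

end UnrG
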