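import Pool.Agent.Lib.MP_859dd5_ag.PF.H4
import Pool.Agent.Lib.MP_859dd5_ag.PF.H5
import Pool.Agent.Lib.MP_859dd5_ag.PF.C2
import Pool.Agent.Lib.MP_859dd5_ag.PF.C3

/-!
# Unramified classes in the supersingular case
-/

namespace UnrG

universe u v w

open Polynomial Finset
open scoped Classical

variable {m : ℕ} {𝔽 : Type w} [Field 𝔽] [Fintype 𝔽] (b : Base 𝔽)

variable {F L : Type u} [Field F] [Field L] [Algebra F L] {ι : 𝔽 →+* F} {r k : ℕ}
  {t : Fin r → L} {a x : Fin (k + 2 + 2) → L}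

/-- A class of a field `E` contained in a purely transcendental extension `F(v)` of `F` generated over
`E` by roots of elements. -/
private theorem smul_of_cover (hm : Any m) {E Ω : Type u} [Field E] [Field Ω] [Algebra F E]
    [Algebra F Ω] [Algebra E Ω] [IsScalarTower F E Ω]
    (hF : ∀ a : F, a ≠ 0 → ∃ n > 0, a ^ n = 1) {l d Q : ℕ} (hd : 0 < d) (hQ : 0 < Q)
    (s : Fin l → Ω) (μ : Ω) (hs : ∀ i, ∃ e : E, s i ^ d = algebraMap E Ω e)
    (hμ : μ ^ Q ∈ IntermediateField.adjoin F (Set.range s)) {c : ℕ} (v : Fin c → Ω)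
    (hv : AlgebraicIndependent F v)
    (hE : ∀ e : E, algebraMap E Ω e ∈ IntermediateField.adjoin F (Set.range v))
    (hsT : ∀ i, s i ∈ IntermediateField.adjoin F (Set.range v))
    (hμT : μ ∈ IntermediateField.adjoin F (Set.range v))
    (hvP : ∀ T : IntermediateField F Ω, (∀ e : E, algebraMap E Ω e ∈ T) → (∀ i, s i ∈ T) →
      μ ∈ T → ∀ i, v i ∈ T) {j : ℕ} (hj : 2 ≤ j)
    {z : KM m E} (hz : Unr z) (hd' : z ∈ KM.deg m E j) :
    ((d ^ l).factorial * Q.factorial) • z = 0 := by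
  choose e he using hs
  obtain ⟨P₁, hP₁⟩ : ∃ P₁ : IntermediateField E Ω, P₁ = IntermediateField.adjoin E (Set.range s) :=
    ⟨_, rfl⟩
  obtain ⟨hfd1, hle1⟩ : FiniteDimensional E P₁ ∧ Module.finrank E P₁ ≤ d ^ l := by
    rw [hP₁]
    refine finrank_adjoin_le s (fun i => X ^ d - C (e i)) (fun i => X_pow_sub_C_ne_zero hd _)
      (fun i => (natDegree_X_pow_sub_C).le) fun i => ?_
    rw [map_sub, map_pow, aeval_X, aeval_C, he, sub_self]
  have hst1 : IsScalarTower F P₁ Ω := IsScalarTower.of_algebraMap_eq fun x => rfl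
  have hsP : ∀ i, s i ∈ P₁ := fun i => by
    rw [hP₁]
    exact IntermediateField.subset_adjoin _ _ ⟨i, rfl⟩
  have hμP : μ ^ Q ∈ P₁ := by
    have h1 : IntermediateField.adjoin F (Set.range s) ≤ P₁.restrictScalars F := by
      rw [IntermediateField.adjoin_le_iff]
      rintro _ ⟨i, rfl⟩
      exact hsP i
    exact h1 hμ
  obtain ⟨P₂, hP₂⟩ : ∃ P₂ : IntermediateField P₁ Ω, P₂ =
      IntermediateField.adjoin P₁ (Set.range (fun _ : Fin 1 => μ)) := ⟨_, rfl⟩
  obtain ⟨hfd2, hle2⟩ : FiniteDimensional P₁ P₂ ∧ Module.finrank P₁ P₂ ≤ Q ^ 1 := by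
    rw [hP₂]
    refine finrank_adjoin_le (fun _ : Fin 1 => μ) (fun _ => X ^ Q - C (⟨μ ^ Q, hμP⟩ : P₁))
      (fun i => X_pow_sub_C_ne_zero hQ _) (fun i => (natDegree_X_pow_sub_C).le) fun i => ?_
    rw [map_sub, map_pow, aeval_X, aeval_C]
    exact sub_self _
  have hst2 : IsScalarTower F P₂ Ω := IsScalarTower.of_algebraMap_eq fun x => rfl
  have hμ2 : μ ∈ P₂ := by
    rw [hP₂]
    exact IntermediateField.subset_adjoin _ _ ⟨0, rfl⟩
  have hP12 : ∀ w ∈ P₁, w ∈ P₂ := fun w hw => P₂.algebraMap_mem (⟨w, hw⟩ : P₁)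
  have hv2 : ∀ i, v i ∈ P₂ := by
    refine hvP (P₂.restrictScalars F) (fun a => ?_) (fun i => ?_) ?_
    · exact hP12 _ (P₁.algebraMap_mem a)
    · exact hP12 _ (hsP i)
    · exact hμ2
  -- the two fields agree
  have hT1 : ∀ w ∈ P₁, w ∈ IntermediateField.adjoin F (Set.range v) := by
    have h1 : P₁.toSubfield ≤ (IntermediateField.adjoin F (Set.range v)).toSubfield := by
      rw [hP₁, IntermediateField.adjoin_toSubfield, Subfield.closure_le]
      rintro _ (⟨a, rfl⟩ | ⟨i, rfl⟩)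
      · exact hE a
      · exact hsT i
    exact fun w hw => h1 hw
  have hT2 : ∀ w ∈ P₂, w ∈ IntermediateField.adjoin F (Set.range v) := by
    have h1 : P₂.toSubfield ≤ (IntermediateField.adjoin F (Set.range v)).toSubfield := by
      rw [hP₂, IntermediateField.adjoin_toSubfield, Subfield.closure_le]
      rintro _ (⟨a, rfl⟩ | ⟨i, rfl⟩)
      · exact hT1 _ a.2
      · exact hμT
    exact fun w hw => h1 hw
  have hv' : AlgebraicIndependent F (fun i => (⟨v i, hv2 i⟩ : P₂)) :=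
    AlgebraicIndependent.of_comp (IsScalarTower.toAlgHom F P₂ Ω) hv
  have hgen : IntermediateField.adjoin F (Set.range (fun i => (⟨v i, hv2 i⟩ : P₂))) = ⊤ := by
    have h1 : (IntermediateField.adjoin F (Set.range (fun i => (⟨v i, hv2 i⟩ : P₂)))).map
        (IsScalarTower.toAlgHom F P₂ Ω) = IntermediateField.adjoin F (Set.range v) := by
      rw [IntermediateField.adjoin_map, ← Set.range_comp]
      rfl
    rw [eq_top_iff]
    intro w _
    have h2 : (w : Ω) ∈ (IntermediateField.adjoin F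
        (Set.range (fun i => (⟨v i, hv2 i⟩ : P₂)))).map (IsScalarTower.toAlgHom F P₂ Ω) := by
      rw [h1]
      exact hT2 _ w.2
    obtain ⟨w', hw', hww⟩ := h2
    have h3 : w' = w := Subtype.ext hww
    rwa [← h3]
  have hz1 : Unr (KM.map m (algebraMap E P₁) z) := hz.map (algebraMap E P₁)
  have hd1 : KM.map m (algebraMap E P₁) z ∈ KM.deg m P₁ j := KM.deg_map (algebraMap E P₁) hd'
  have h4 : Module.finrank P₁ P₂ • KM.map m (algebraMap E P₁) z = 0 :=
    smul_eq_zero_of_purely hm hF (fun i => (⟨v i, hv2 i⟩ : P₂)) hv' hgen hj hz1 hd1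
  have h5 := smul_eq_zero_of_ext hm h4
  have hd1 : Module.finrank E P₁ ∣ (d ^ l).factorial :=
    Nat.dvd_factorial Module.finrank_pos hle1
  have hd2 : Module.finrank P₁ P₂ ∣ Q.factorial :=
    Nat.dvd_factorial Module.finrank_pos (by rwa [pow_one] at hle2)
  obtain ⟨k', hk'⟩ := mul_dvd_mul hd1 hd2
  rw [hk', mul_comm, mul_nsmul', h5, nsmul_zero]

/-- Proof: let `Ω = AlgebraicClosure L`, `Q = p ^ κ`, `z` from `exists_cover` (`M = Q + 1`),
`ε, c, c'` from `exists_hermConst`, `y₁, …, μ` from `exists_hermData` (`cover_ne_const`). Let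
`E = fieldA b F t x α`, `P₁ = IntermediateField.adjoin E (range z)` (inside `Ω`), of degree at most
`(Q + 1) ^ (k + 4)` (`finrank_adjoin_le`: `z i ^ (Q + 1) ∈ E`), and `P₂ = P₁(μ)`, of degree at most `Q`
over `P₁` (`μ ^ Q ∈ P₁`, `HermData.mem'`). By `hermPar_independent`, `z_mem`, `fieldA_le_cover` the field
`P₂` is generated over `F` by the algebraically independent family `hermPar` (which lies in `P₂` by
`HermData.mem'`), so `smul_eq_zero_of_purely` for `P₁ → P₂` and the image of `z` in `K (P₁)` (unramified of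
degree `j`) and `smul_eq_zero_of_ext` for `E → P₁`. Degrees divide the factorials. -/
theorem fieldA_smul_of_neg_one (hm : Any m) (h : DiagData b t (F := F) a x)
    (hF : ∀ a : F, a ≠ 0 → ∃ n > 0, a ^ n = 1) {p κ : ℕ} [FixSp F p (2 * κ)] [Fact p.Prime] [CharP F p]
    (hκ : 0 < κ) (hQ : b.N ∣ p ^ κ + 1) {α : Fin (k + 2 + 2) → ZMod b.N} (hα : ∑ i, α i = 0)
    {β : L} (hβ : β ∈ IntermediateField.adjoin F (Set.range t))
    (hβN : ∏ i, a i ^ (α i).val = β ^ b.N) {j : ℕ} (hj : 2 ≤ j)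
    {z : KM m (fieldA b F t x α)} (hz : Unr z) (hd : z ∈ KM.deg m (fieldA b F t x α) j) :
    (((p ^ κ + 1) ^ (k + 4)).factorial * (p ^ κ).factorial) • z = 0 := by
  have hQ0 : 0 < p ^ κ := pow_pos (Nat.Prime.pos Fact.out) _
  have hne := h.a_ne
  let Ω := AlgebraicClosure L
  obtain ⟨s, hs0, hs, hsum⟩ := exists_cover b h (Ω := Ω) (p ^ κ + 1) (Nat.succ_pos _)
  have hS : FixSp F p (2 * κ) := inferInstance
  obtain ⟨ζ, hζ⟩ := hS.exists_isPrimitiveRoot Fact.out (by omega) (N := b.N) (by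
    have h1 : p ^ (2 * κ) = (p ^ κ) ^ 2 := by rw [← pow_mul, mul_comm]
    rw [h1, ← one_pow 2, Nat.sq_sub_sq]
    exact hQ.mul_right _)
  obtain ⟨ε, c, c', hc⟩ := exists_hermConst (F := F) p κ hκ
  obtain ⟨y₁, y₂, y₃, y₄, μ, hd4⟩ := exists_hermData (Ω := Ω) hc hs0 hsum
    (cover_ne_const b h (Nat.succ_pos _) hs ε)
  have hind := hermPar_independent b h hκ hs hc hd4
  have hzm := fun i => z_mem b h hκ hs hc hd4 i
  -- membership of the parameters
  have htT : ∀ i, algebraMap L Ω (t i) ∈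
      IntermediateField.adjoin F (Set.range (hermPar F t s y₁ y₂ y₃ μ)) := fun i =>
    IntermediateField.subset_adjoin _ _ ⟨Sum.inl i, rfl⟩
  have hμT : μ ∈ IntermediateField.adjoin F (Set.range (hermPar F t s y₁ y₂ y₃ μ)) :=
    IntermediateField.subset_adjoin _ _ ⟨Sum.inr (Sum.inl 0), rfl⟩
  let eI : Fin (r + (2 + k)) ≃ Fin r ⊕ (Fin 2 ⊕ Fin k) :=
    (finSumFinEquiv (m := r) (n := 2 + k)).symm.trans
      (Equiv.sumCongr (Equiv.refl _) finSumFinEquiv.symm)
  have hrange : Set.range (hermPar F t s y₁ y₂ y₃ μ ∘ eI) =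
      Set.range (hermPar F t s y₁ y₂ y₃ μ) := eI.surjective.range_comp _
  have hFt : ∀ T : IntermediateField F L, (∀ i, t i ∈ T) → ∀ i, a i ∈ T := by
    intro T hT i
    have h1 : IntermediateField.adjoin F (Set.range t) ≤ T := by
      rw [IntermediateField.adjoin_le_iff]
      rintro _ ⟨i, rfl⟩
      exact hT i
    exact h1 (h.a_mem i)
  have htE : ∀ i, t i ∈ fieldA b F t x α := fun i =>
    IntermediateField.subset_adjoin _ _ (Or.inl (Or.inl ⟨i, rfl⟩))
  have hxE : ∀ i, x i ^ b.N ∈ fieldA b F t x α := fun i =>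
    IntermediateField.subset_adjoin _ _ (Or.inl (Or.inr ⟨i, rfl⟩))
  have hroot : ∀ i, ∃ e : fieldA b F t x α,
      s i ^ (p ^ κ + 1) = algebraMap (fieldA b F t x α) Ω e := by
    intro i
    refine ⟨⟨a i * x i ^ b.N / a 0, ?_⟩, hs i⟩
    exact div_mem (mul_mem (hFt _ htE i) (hxE i)) (hFt _ htE 0)
  refine smul_of_cover (F := F) (E := fieldA b F t x α) (Ω := Ω) hm hF (Nat.succ_pos _) hQ0 s μ
    hroot ?_ (hermPar F t s y₁ y₂ y₃ μ ∘ eI) (hind.comp _ eI.injective) ?_ ?_ ?_ ?_ hj hz hd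
  · exact (hd4.mem' hc ⊤ trivial (fun _ => trivial)).2.2.1
  · intro e
    rw [hrange]
    exact fieldA_le_cover b hζ h hQ hs hα hβ hβN _ htT hzm e.2
  · intro i
    rw [hrange]
    exact hzm i
  · rw [hrange]
    exact hμT
  · intro T hTE hTs hTμ i
    have h1 := hd4.mem' hc T hTμ hTs
    have h2 : ∀ i, hermPar F t s y₁ y₂ y₃ μ i ∈ T := by
      rintro (i | i | i)
      · exact hTE ⟨t i, htE i⟩
      · fin_cases i
        · exact hTμ
        · exact h1.1
      · exact h1.2.2.2 i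
    exact h2 (eI i)

/-- The projections in the supersingular case. Hint: `vv_eq_zero_of_fieldA`. -/
theorem vv_eq_zero_of_neg_one (hm : Any m) (h : DiagData b t (F := F) a x)
    (hF : ∀ a : F, a ≠ 0 → ∃ n > 0, a ^ n = 1) (w : ZMod b.N → ℤ) {p κ : ℕ}
    [FixSp F p (2 * κ)] [Fact p.Prime]
    [CharP F p] (hκ : 0 < κ) (hQ : b.N ∣ p ^ κ + 1) {α : Fin (k + 2 + 2) → ZMod b.N}
    (hα : ∑ i, α i = 0) {β : L} (hβ : β ∈ IntermediateField.adjoin F (Set.range t))
    (hβN : ∏ i, a i ^ (α i).val = β ^ b.N) {j : ℕ} (hj : 2 ≤ j) {ξ : KM m L} (hξ : Unr ξ)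
    (hd : ξ ∈ KM.deg m L j) :
    ((((p ^ κ + 1) ^ (k + 4)).factorial * (p ^ κ).factorial) *
      ((b.N ^ (k + 2 + 1)).factorial ^ 2)) • vv b ι t x w α ξ = 0 :=
  vv_eq_zero_of_fieldA b hm h w α
    (fun _ hz hzd => fieldA_smul_of_neg_one b hm h hF hκ hQ hα hβ hβN hj hz hzd) hξ hd

end UnrG
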