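import Pool.Agent.Lib.MP_859dd5_ag.Mg.G001

/-!
# The Hermitian case
-/

namespace UnrG

universe u v w

open Polynomial Finset
open scoped Classical

variable {𝔽 : Type w} [Field 𝔽] [Fintype 𝔽] (b : Base 𝔽)

/-- (helper40) -/
theorem vv_eq_zero_of_neg_one {p : ℕ} [Fact p.Prime] {k : ℕ} (hk : (p : ZMod b.N) ^ k = -1) {n : ℕ}
    (hn : 2 ≤ n) (α : Fin (n + 2) → ZMod b.N) (hsum : ∑ i, α i = 0) :
    ∃ C : ℕ, 0 < C ∧ ∀ (m : ℕ) (F L : Type u) [Field F] [IsAlgClosed F] [CharP F p] [Field L]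
      [Algebra F L] (_ : ∀ a : F, a ≠ 0 → ∃ n > 0, a ^ n = 1) (ι : 𝔽 →+* F) (r : ℕ)
      (t : Fin r → L) (a x : Fin (n + 2) → L) (_ : DiagData b t (F := F) a x) (β : L)
      (_ : β ∈ IntermediateField.adjoin F (Set.range t))
      (_ : ∏ i, a i ^ (α i).val = β ^ b.N)
      (w : ZMod b.N → ℤ) (j : ℕ) (_ : 2 ≤ j) (ξ : KM m L) (_ : Unr ξ) (_ : ξ ∈ KM.deg m L j),
      C • vv b ι t x w α ξ = 0 := by
  sorry

end UnrG
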