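import Pool.Agent.Lib.MP_859dd5_ag.Mg.G009
import Pool.Agent.Lib.MP_859dd5_ag.K.I2

/-!
# Jacobi sums equal to the square of the order of the field
-/

namespace UnrG

/-- (helper40) -/
theorem twistedPairs_of_jacobi {k : Type} [Field k] [Fintype k] (p : ℕ) [Fact p.Prime] [CharP k p]
    {N : ℕ} (hN : N.Prime) (hneg : ∀ j, (p : ZMod N) ^ j ≠ -1) {α : Fin (4 + 2) → ZMod N}
    (h : IsMinimalZeroSum α) (χ : MulChar k ℂ) (hχ : orderOf χ = N)
    (hJ : jacobiProduct χ α = (Fintype.card k : ℂ) ^ 2) : TwistedPairs p α := by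
  sorry

end UnrG
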