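import Pool.Agent.Lib.MP_859dd5_ag.PF.D4
import Pool.Agent.Lib.MP_859dd5_ag.PF.N9
import Pool.Agent.Lib.MP_859dd5_ag.PF.H9
import Pool.Agent.Lib.MP_859dd5_ag.K.I4

/-!
# Minimal exponents for fourfolds of prime degree
-/

namespace UnrG

universe u v w

open Polynomial Finset
open scoped Classical

/-- Minimal exponents. Proof: if `α` has two twisted pairs, `vv_eq_zero_of_twisted` (all `α i ≠ 0` by
minimality). Otherwise, if `p ^ k = -1` mod `N` for some `k`, `exists_vv_of_neg_one`. Otherwise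
`jacobiProduct χ α ≠ q ^ 2` for all `χ` of order `N` by `twistedPairs_of_jacobi`, and
`vv_eq_zero_of_min` applies (`jacobiProduct` unfolds to the product in its hypothesis, see the use in
the proof of `main_dominated`, K/I4). -/
theorem vv_eq_zero_of_min_prime {𝔽 : Type} [Field 𝔽] [Fintype 𝔽] (b : Base 𝔽) (hN : b.N.Prime)
    {p : ℕ} [Fact p.Prime] [CharP 𝔽 p] {w : ZMod b.N → ℤ} (hw : Weight b.N w)
    {α : Fin (4 + 2) → ZMod b.N} (hα : MinZero α) :
    ∃ C S : ℕ, 0 < C ∧ 0 < S ∧ ∀ (m : ℕ) (F L : Type u) [Field F] [FixSp F p S] [CharP F p] [Field L]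
      [Algebra F L] (_ : ∀ a : F, a ≠ 0 → ∃ n > 0, a ^ n = 1) (ι : 𝔽 →+* F) (r : ℕ)
      (t : Fin r → L) (a x : Fin (4 + 2) → L) (_ : DiagData b t (F := F) a x)
      (σ : L →+* L) (_ : SigmaL b F t a x σ)
      (_ : ¬ TwistedPairs p α → ∃ β ∈ IntermediateField.adjoin F (Set.range t), σ β = β ∧
        ∏ i, a i ^ (α i).val = β ^ b.N) (ξ : KM m L) (_ : Unr ξ) (_ : ξ ∈ KM.deg m L 3)
      (_ : KM.map m σ ξ = b.q • ξ), C • vv b ι t x w α ξ = 0 := by
  have h0 : ∀ i, α i ≠ 0 := by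
    intro i hi
    refine hα.2 {i} (Finset.singleton_nonempty i) ?_ ?_
    · intro h
      have h1 := congrArg Finset.card h
      rw [Finset.card_singleton, Finset.card_univ, Fintype.card_fin] at h1
      omega
    · rw [Finset.sum_singleton, hi]
  by_cases htw : TwistedPairs p α
  · obtain ⟨C, S, hC, hS, h⟩ := vv_eq_zero_of_twisted.{u} b hN h0 hα.1 htw
    refine ⟨C, S, hC, hS, ?_⟩
    intro m F L _ _ _ _ _ hF ι r t a x hD σ hσ hβ ξ hξ hd hσξ
    exact h m F L hF ι r t a x hD w 3 (by norm_num) ξ hξ hd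
  · by_cases hneg : ∃ k, (p : ZMod b.N) ^ k = -1
    · obtain ⟨k, hk⟩ := hneg
      obtain ⟨C, S, hC, hS, h⟩ := exists_vv_of_neg_one.{u} b hk (n := 4) (by norm_num) α hα.1
      refine ⟨C, S, hC, hS, ?_⟩
      intro m F L _ _ _ _ _ hF ι r t a x hD σ hσ hβ ξ hξ hd hσξ
      obtain ⟨β, hβ, hσβ, hβN⟩ := hβ htw
      exact h m F L hF ι r t a x hD β hβ hβN w 3 (by norm_num) ξ hξ hd
    · push Not at hneg
      obtain ⟨C, hC, h⟩ := vv_eq_zero_of_min.{u} b hw hα (by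
        intro _ χ hχ hJ
        refine htw (twistedPairs_of_jacobi p hN hneg hα χ hχ ?_)
        rw [b.card_q]
        exact hJ)
      refine ⟨C, 1, hC, one_pos, ?_⟩
      intro m F L _ _ _ _ _ hF ι r t a x hD σ hσ hβ ξ hξ hd hσξ
      obtain ⟨β, hβ, hσβ, hβN⟩ := hβ htw
      exact h m F L ι r t a x hD β hβ hβN σ hσ hσβ ξ hξ hd hσξ

end UnrG
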