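import Pool.Agent.Lib.MP_859dd5_ag.PF.I1
import Pool.Agent.Lib.MP_859dd5_ag.K.D11

/-!
# The main theorem for fourfolds of prime degree: reduced Milnor K-ring
-/

namespace UnrG

universe u v w

open Polynomial Finset
open scoped Classical

/-- The main theorem for the reduced Milnor K-ring. Proof: copy the proof of `main_reduced`
(K/D11), with `vv_eq_zero_of_min_prime` in place of `vv_eq_zero_of_min`. -/
theorem main_reduced_prime {𝔽 : Type} [Field 𝔽] [Fintype 𝔽] (b : Base 𝔽) (hN : b.N.Prime)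
    {p : ℕ} [Fact p.Prime] [CharP 𝔽 p] :
    ∃ E S : ℕ, 0 < E ∧ 0 < S ∧ ∀ (m : ℕ) (F L : Type u) [Field F] [FixSp F p S] [CharP F p] [Field L]
      [Algebra F L] (ι : 𝔽 →+* F) (_ : ∀ a : F, a ≠ 0 → ∃ n > 0, a ^ n = 1)
      (r : ℕ) (t : Fin r → L) (a x : Fin (4 + 2) → L) (_ : DiagData b t (F := F) a x)
      (σ : L →+* L) (_ : SigmaL b F t a x σ) (H : Set (Fin (4 + 2) → ZMod b.N))
      (_ : ∀ α : Fin (4 + 2) → ZMod b.N, MinZero α → (∀ h ∈ H, pair α h = 0) →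
        ¬ TwistedPairs p α → ∃ β ∈ IntermediateField.adjoin F (Set.range t), σ β = β ∧
          ∏ i, a i ^ (α i).val = β ^ b.N)
      (ξ : KM m L) (_ : Unr ξ) (_ : ξ ∈ KM.deg m L 3) (_ : KM.map m σ ξ = b.q • ξ)
      (_ : ∀ h ∈ H, ∃ f : L →+* L, IsAdm b ι t x h f ∧ KM.map m f ξ = ξ), E • ξ = 0 := by
  obtain ⟨w, hw⟩ := exists_weight b.two_le
  have key : ∀ α : Fin (4 + 2) → ZMod b.N, ∃ C S : ℕ, 0 < C ∧ 0 < S ∧ (MinZero α →
      ∀ (m : ℕ) (F L : Type u) [Field F] [FixSp F p S] [CharP F p] [Field L]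
      [Algebra F L] (_ : ∀ a : F, a ≠ 0 → ∃ n > 0, a ^ n = 1) (ι : 𝔽 →+* F) (r : ℕ)
      (t : Fin r → L) (a x : Fin (4 + 2) → L) (_ : DiagData b t (F := F) a x)
      (σ : L →+* L) (_ : SigmaL b F t a x σ)
      (_ : ¬ TwistedPairs p α → ∃ β ∈ IntermediateField.adjoin F (Set.range t), σ β = β ∧
        ∏ i, a i ^ (α i).val = β ^ b.N) (ξ : KM m L) (_ : Unr ξ) (_ : ξ ∈ KM.deg m L 3)
      (_ : KM.map m σ ξ = b.q • ξ), C • vv b ι t x w α ξ = 0) := by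
    intro α
    by_cases hα : MinZero α
    · obtain ⟨C, S, hC, hS, hC'⟩ := vv_eq_zero_of_min_prime.{u} b hN (p := p) hw hα
      exact ⟨C, S, hC, hS, fun _ => hC'⟩
    · exact ⟨1, 1, one_pos, one_pos, fun h => absurd h hα⟩
  choose C S hC0 hS0 hC using key
  refine ⟨b.N ^ (4 + 1) * (b.N * ((b.N ^ (4 + 1)).factorial) ^ 2 * ∏ α, C α), ∏ α, S α,
    Nat.mul_pos (pow_pos b.N_pos _) (Nat.mul_pos (Nat.mul_pos b.N_pos
      (pow_pos (Nat.factorial_pos _) 2)) (Finset.prod_pos fun α _ => hC0 α)),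
    Finset.prod_pos fun α _ => hS0 α, ?_⟩
  intro m F L _ _ _ _ _ ι hF r t a x h σ hσ H hH ξ hξ hd hσξ hinv
  have hsum := sum_vv b (ι := ι) h hw ξ
  have h1 : b.N ^ (4 + 1) • ξ = ∑ e : Fin (4 + 1) → ZMod b.N,
      vv b ι t x w (Fin.cons (-∑ j, e j) e) ξ := by
    rw [hsum]
    rw [← Nat.cast_pow, natCast_zsmul]
  rw [mul_comm, mul_smul, h1, Finset.smul_sum]
  refine Finset.sum_eq_zero fun e _ => ?_
  set α : Fin (4 + 2) → ZMod b.N := Fin.cons (-∑ j, e j) e with hα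
  have hα0 : ∑ i, α i = 0 := by
    rw [hα, Fin.sum_cons]
    ring
  by_cases hmin : MinZero α
  · by_cases hp : ∀ h ∈ H, pair α h = 0
    · have hSα : FixSp F p (S α) := FixSp.of_dvd F Fact.out
        (Finset.prod_pos fun α _ => hS0 α) (Finset.dvd_prod_of_mem S (Finset.mem_univ α))
        inferInstance
      have h2 := hC α hmin m F L hF ι r t a x h σ hσ (hH α hmin hp) ξ hξ hd hσξ
      obtain ⟨D, hD⟩ := Finset.dvd_prod_of_mem C (Finset.mem_univ α)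
      rw [hD, mul_comm (C α) D, ← mul_assoc, mul_smul, h2, smul_zero]
    · push Not at hp
      obtain ⟨h₀, hh₀, hk⟩ := hp
      obtain ⟨f, hf, hfξ⟩ := hinv h₀ hh₀
      have h2 := vv_eq_zero_of_inv b h hw hf hk hfξ
      rw [mul_assoc b.N, mul_comm b.N, mul_smul, h2, smul_zero]
  · have h2 := vv_eq_zero_of_not_min b (ι := ι) (any m) h hF w hα0 hmin (by norm_num : 2 ≤ 3) hξ hd
    rw [mul_comm (b.N * _), ← mul_assoc, mul_smul, h2, smul_zero]

end UnrG
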