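import Pool.Agent.Lib.MP_859dd5_ag.PF.I2
import Pool.Agent.Lib.MP_859dd5_ag.K.I5

/-!
# The main theorem for varieties dominated by diagonal fourfolds of prime degree
-/

namespace UnrG

universe u v w

open Polynomial Finset
open scoped Classical

private lemma PFI3_map_pow {m : ℕ} {L : Type u} [Field L] {q : ℕ} {σ : L →+* L} {η : KM m L}
    (h : KM.map m σ η = q • η) (s : ℕ) : KM.map m (σ ^ s) η = q ^ s • η := by
  induction s with
  | zero =>
    rw [pow_zero, pow_zero, one_smul]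
    exact congrArg (fun g : KM m L →ₐ[ZMod m] KM m L => g η) (KM.map_id (m := m) (K := L))
  | succ s ih =>
    have h1 : KM.map m (σ ^ (s + 1)) η = KM.map m (σ ^ s) (KM.map m σ η) := by
      rw [KM.map_map]
      rfl
    rw [h1, h, map_nsmul, ih, smul_smul, pow_succ, mul_comm]

private lemma PFI3_pow_val {N : ℕ} [NeZero N] {F : Type u} [Field F] {z : F}
    (hz : z ^ N = 1) (c : ZMod N) (w : ℕ) : (z ^ w) ^ c.val = z ^ (w • c).val := by
  rw [← pow_mul]
  have h1 : ((w * c.val : ℕ) : ZMod N) = ((w • c).val : ℕ) := by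
    rw [Nat.cast_mul, ZMod.natCast_zmod_val, ZMod.natCast_zmod_val, nsmul_eq_mul]
  have h2 := (ZMod.natCast_eq_natCast_iff' _ _ _).1 h1
  rw [← Nat.div_add_mod (w * c.val) N, ← Nat.div_add_mod ((w • c).val) N, pow_add, pow_add,
    pow_mul, pow_mul, hz, one_pow, one_pow, h2]

/-- **Main theorem for fourfolds of prime degree**, over an arbitrary algebraic extension `F` of `𝔽`
which contains the extension of degree `s`. Proof: copy the proof of `main_dominated`
(K/I4), with `main_reduced_prime` in place of `main_reduced`; `𝔽'` and `F` have characteristic `p`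
(`F` is an `𝔽`-algebra: `charP_of_injective_algebraMap`; `𝔽'` embeds into `F`, or its order is a power
of that of `𝔽`). -/
theorem main_prime_ext (𝔽 : Type) [Field 𝔽] [Fintype 𝔽] (p : ℕ) [Fact p.Prime] [CharP 𝔽 p] (N : ℕ)
    (hN : N.Prime) (hp : N ≠ p) :
    ∃ E s : ℕ, 0 < E ∧ 0 < s ∧ ∀ (m : ℕ) (F K L : Type u) [Field F] [Field K] [Field L]
      [Algebra 𝔽 F] [Algebra.IsAlgebraic 𝔽 F] [Algebra F L] [Algebra K L]
      [FiniteDimensional K L] (ω : F) (_ : IsPrimitiveRoot ω (Fintype.card 𝔽 ^ s - 1)) (r : ℕ) (t : Fin r → L) (a x : Fin (4 + 2) → L)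
      (_ : IsDiagonalHypersurface N (F := F) t a x)
      (σ : L →+* L) (_ : ∀ c : F, σ (algebraMap F L c) = algebraMap F L c ^ Fintype.card 𝔽)
      (_ : ∀ i, σ (t i) = t i) (_ : ∀ i, σ (a i) = a i) (_ : ∀ i, σ (x i) = x i)
      (σK : K →+* K) (_ : ∀ z : K, σ (algebraMap K L z) = algebraMap K L (σK z))
      (ζ : F) (_ : IsPrimitiveRoot ζ N)
      (_ : ∀ α : Fin (4 + 2) → ZMod N, IsMinimalZeroSum α → ¬ TwistedPairs p α →
        (∀ (h : Fin (4 + 2) → ZMod N) (f : L →+* L),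
          (∀ c : F, f (algebraMap F L c) = algebraMap F L c) → (∀ i, f (t i) = t i) →
          (∀ i, f (x i) = algebraMap F L ζ ^ (h i).val * x i) →
          (∀ z : K, f (algebraMap K L z) = algebraMap K L z) → ∑ i, α i * h i = 0) →
        ∃ β ∈ IntermediateField.adjoin F (Set.range t), ∏ i, a i ^ (α i).val = β ^ N)
      (ξ : MK m K) (_ : MK.Unr ξ) (_ : ξ ∈ MK.deg m K 3)
      (_ : MK.map m σK ξ = Fintype.card 𝔽 • ξ), (E * Module.finrank K L) • ξ = 0 := by
  have hq : (Fintype.card 𝔽).Coprime N := by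
    obtain ⟨k, _, hk⟩ := FiniteField.card 𝔽 p
    rw [hk]
    exact Nat.Coprime.pow_left _ ((Nat.coprime_primes Fact.out hN).2 (Ne.symm hp))
  obtain ⟨s, 𝔽', _, _, b, hs, rfl, hcard, hsum⟩ := exists_base_extension 𝔽 hN.two_le hq
  have hchar : CharP 𝔽' p := by
    obtain ⟨p', hp'⟩ := CharP.exists 𝔽'
    obtain ⟨k, _, hk⟩ := FiniteField.card 𝔽 p
    obtain ⟨k', hpr', hk'⟩ := FiniteField.card 𝔽' p'
    have hpp : p' = p := by
      have h1 : p' ^ (k' : ℕ) = p ^ ((k : ℕ) * s) := by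
        rw [← hk', hcard, hk, pow_mul]
      have h2 : p' ∣ p ^ ((k : ℕ) * s) := by
        rw [← h1]
        exact dvd_pow_self _ k'.pos.ne'
      exact (Nat.prime_dvd_prime_iff_eq hpr' Fact.out).1 (hpr'.dvd_of_dvd_pow h2)
    rw [← hpp]
    exact hp'
  obtain ⟨E₀, S, hE₀, hS, hE⟩ := main_reduced_prime.{u} b hN (p := p)
  refine ⟨2 * E₀, s * S, by positivity, Nat.mul_pos hs hS, ?_⟩
  intro m F K L _ _ _ _ _ _ _ _ ω hω r t a x hX σ hσ hσt hσa hσx σK hσK ζ hζ hH ξ hξ hd hσξ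
  have hcharF : CharP F p := charP_of_injective_algebraMap (algebraMap 𝔽 F).injective p
  obtain ⟨k₀, _, hk₀⟩ := FiniteField.card 𝔽 p
  have hQ1 : 1 < Fintype.card 𝔽 ^ (s * S) :=
    Nat.one_lt_pow (Nat.mul_pos hs hS).ne' Fintype.one_lt_card
  have hFS : FixSp F p S := by
    refine FixSp.of_dvd F (S := k₀ * (s * S)) Fact.out (Nat.mul_pos k₀.pos (Nat.mul_pos hs hS))
      ⟨k₀ * s, by ring⟩ ⟨ω, ?_⟩
    rw [pow_mul, ← hk₀]
    exact hω
  obtain ⟨ω', hω'⟩ : ∃ ω' : F, IsPrimitiveRoot ω' (Fintype.card 𝔽 ^ s - 1) := by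
    have h1 : Fintype.card 𝔽 ^ s - 1 ∣ Fintype.card 𝔽 ^ (s * S) - 1 := by
      rw [pow_mul]
      simpa only [one_pow] using Nat.sub_dvd_pow_sub_pow (Fintype.card 𝔽 ^ s) 1 S
    obtain ⟨e, he⟩ := h1
    exact ⟨ω ^ e, hω.pow (by omega) (by rw [he, mul_comm])⟩
  obtain ⟨ι⟩ := exists_embedding_of_root 𝔽 𝔽' hcard F ω' hω'
  have hbq : b.q = Fintype.card 𝔽 ^ s := by rw [← b.card_q, hcard]
  have hζ' := b.hζ_map ι
  obtain ⟨u, _, hu, huζ⟩ := hζ'.isPrimitiveRoot_iff.1 hζ
  obtain ⟨η, hη⟩ : ∃ η, η = KM.map m (algebraMap K L) (MK.red m K ξ) := ⟨_, rfl⟩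
  have hmap : KM.map m σ η = Fintype.card 𝔽 • η := by
    have h1 : σ.comp (algebraMap K L) = (algebraMap K L).comp σK := RingHom.ext hσK
    rw [hη, KM.map_map, h1, ← KM.map_map, ← MK.red_map, hσξ, map_nsmul, map_nsmul]
  have hηu : Unr η := by rw [hη]; exact (MK.red_unr hξ).map _
  have hηd : η ∈ KM.deg m L 3 := by rw [hη]; exact KM.deg_map _ (MK.red_deg hd)
  have hres : E₀ • η = 0 := by
    refine hE m F L ι (exists_pow_eq_one_of_algebraic 𝔽 F) r t a x
      ⟨hX.coeff_mem, hX.coeff_ne, hX.x_zero, hX.equation, hX.independent, hX.generate⟩ (σ ^ s)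
      ⟨?_, fun i => sigma_pow_fix (hσt i) s, fun i => sigma_pow_fix (hσa i) s,
        fun i => sigma_pow_fix (hσx i) s⟩
      {h' | ∃ h : Fin (4 + 2) → ZMod b.N, h' = u • h ∧ ∃ f : L →+* L,
        (∀ c : F, f (algebraMap F L c) = algebraMap F L c) ∧ (∀ i, f (t i) = t i) ∧
        (∀ i, f (x i) = algebraMap F L ζ ^ (h i).val * x i) ∧
        ∀ z : K, f (algebraMap K L z) = algebraMap K L z} ?_ η hηu hηd ?_ ?_
    · intro c
      rw [sigma_pow_const hσ s c, hbq]
    · intro α hα hp htw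
      obtain ⟨β, hβ, hβN⟩ := hH α hα htw (by
        intro h f hf1 hf2 hf3 hf4
        have h1 : pair α (u • h) = 0 := hp _ ⟨h, rfl, f, hf1, hf2, hf3, hf4⟩
        have h2 : pair α (u • h) = (u : ZMod b.N) * ∑ i, α i * h i := by
          unfold pair
          rw [Finset.mul_sum]
          refine Finset.sum_congr rfl fun i _ => ?_
          rw [Pi.smul_apply, nsmul_eq_mul]
          ring
        rw [h2] at h1
        have h3 : IsUnit (u : ZMod b.N) := (ZMod.isUnit_iff_coprime u b.N).2 hu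
        exact (h3.mul_right_eq_zero).1 h1)
      refine ⟨β, hβ, ?_, hβN⟩
      refine sigma_pow_root b.N_pos hζ' hσ ?_ hsum
      rw [← hβN, map_prod]
      refine Finset.prod_congr rfl fun i _ => ?_
      rw [map_pow, hσa]
    · rw [PFI3_map_pow hmap s, hbq]
    · rintro _ ⟨h, rfl, f, hf1, hf2, hf3, hf4⟩
      refine ⟨f, ⟨hf1, hf2, ?_⟩, ?_⟩
      · intro i
        have hone : (algebraMap F L (ι b.ζ)) ^ b.N = 1 := by
          rw [← map_pow, hζ'.pow_eq_one, map_one]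
        rw [hf3, ← huζ, map_pow, PFI3_pow_val hone (h i) u]
        rfl
      · have h1 : f.comp (algebraMap K L) = algebraMap K L := RingHom.ext hf4
        rw [hη, KM.map_map, h1]
  have h2 : Module.finrank K L • (E₀ • MK.red m K ξ) = 0 := by
    refine finrank_smul_eq_zero (any m) _ (K := K) (L := L) rfl ?_
    rw [map_nsmul, ← hη, hres]
  have h3 : (2 * E₀) * Module.finrank K L = 2 * (Module.finrank K L * E₀) := by ring
  rw [h3, mul_smul]
  refine MK.two_smul_eq_zero ?_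
  rw [mul_smul, map_nsmul, map_nsmul, h2]

end UnrG
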