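import Pool.Agent.Lib.MP_859dd5_ag.K.I2

/-!
# Galois conjugation of products of Jacobi sums
-/

namespace UnrG

open Finset

private lemma s10_root {k : Type} [Field k] [Fintype k] {N : ℕ} {χ : MulChar k ℂ}
    (hχ : orderOf χ = N) {g : kˣ} (hg : ∀ x, x ∈ Subgroup.zpowers g) :
    IsPrimitiveRoot (χ (g : k)) N := by
  constructor
  · rw [← MulChar.pow_apply_coe, ← hχ, pow_orderOf_eq_one, MulChar.one_apply_coe]
  · intro m hm
    rw [← MulChar.pow_apply_coe] at hm
    rw [← hχ]
    apply orderOf_dvd_of_pow_eq_one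
    rw [MulChar.eq_iff hg, hm, MulChar.one_apply_coe]

open scoped Classical in
private noncomputable def s10_poly (k : Type) [Field k] [Fintype k] (l : k → ℕ) (A B : ℕ) :
    Polynomial ℤ :=
  ∑ x : k, if x = 0 ∨ 1 - x = 0 then 0 else Polynomial.X ^ (l x * A + l (1 - x) * B)

private lemma s10_jacobi {k : Type} [Field k] [Fintype k] {χ : MulChar k ℂ} {g : kˣ}
    {l : k → ℕ} (hl : ∀ x : k, x ≠ 0 → (g : k) ^ l x = x) (A B : ℕ) :
    jacobiSum (χ ^ A) (χ ^ B) = Polynomial.aeval (χ (g : k)) (s10_poly k l A B) := by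
  classical
  have h1 : ∀ (x : k) (C : ℕ), x ≠ 0 → (χ ^ C) x = χ (g : k) ^ (l x * C) := by
    intro x C hx
    have h2 : x = ((Units.mk0 x hx : kˣ) : k) := rfl
    rw [h2, MulChar.pow_apply_coe]
    have h3 : χ (g : k) ^ l x = χ x := by rw [← map_pow, hl x hx]
    rw [← h2, pow_mul, h3]
  rw [jacobiSum, s10_poly, map_sum]
  refine Finset.sum_congr rfl fun x _ => ?_
  by_cases hx : x = 0
  · rw [if_pos (Or.inl hx), map_zero, hx, MulChar.map_zero, zero_mul]
  · by_cases hx1 : 1 - x = 0
    · rw [if_pos (Or.inr hx1), map_zero, hx1, MulChar.map_zero, mul_zero]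
    · rw [if_neg (by tauto), map_pow, Polynomial.aeval_X, pow_add, h1 x A hx, h1 (1 - x) B hx1]

/-- If the product of Jacobi sums is a rational integer for one character of order `N` then it is
the same for all characters of order `N`. Proof: the group of multiplicative characters is cyclic
(it has at most one subgroup of each order), so `χ' = χ ^ t` with `t` prime to `N`. Let `ζ` be a
primitive `N`-th root of unity and `χ x = ζ ^ l x` for `x ≠ 0`; then there is `P ∈ ℤ[X]` with
`jacobiProduct (χ ^ s) α = P (ζ ^ s)` for all `s` prime to `N`: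
`P = ∏_j ∑_{x ≠ 0, 1} X ^ (l x * A_j + l (1 - x) * B_j)`. As `P - c` vanishes at `ζ`, it is divisible by
the cyclotomic polynomial (`IsPrimitiveRoot.minpoly_dvd...`, `Polynomial.cyclotomic_eq_minpoly`), which
vanishes at `ζ ^ t`. -/
theorem jacobiProduct_eq_of_eq {k : Type} [Field k] [Fintype k] {N n : ℕ} (hN : 0 < N)
    {χ χ' : MulChar k ℂ} (hχ : orderOf χ = N) (hχ' : orderOf χ' = N)
    (α : Fin (n + 2) → ZMod N) (c : ℤ) (h : jacobiProduct χ α = c) :
    jacobiProduct χ' α = c := by
  classical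
  obtain ⟨g, hg⟩ := IsCyclic.exists_generator (α := kˣ)
  have hex : ∀ x : k, ∃ l : ℕ, x ≠ 0 → (g : k) ^ l = x := by
    intro x
    by_cases hx : x = 0
    · exact ⟨0, fun h0 => absurd hx h0⟩
    · have h1 := mem_powers_iff_mem_zpowers.mpr (hg (Units.mk0 x hx))
      obtain ⟨l, hl⟩ := h1
      refine ⟨l, fun _ => ?_⟩
      have h2 := congrArg (Units.val) hl
      simpa using h2
  choose l hl using hex
  have hP : ∀ (η : MulChar k ℂ), jacobiProduct η α = Polynomial.aeval (η (g : k))
      (∏ j : Fin n, s10_poly k l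
        (∑ i ∈ univ.filter (fun i => i ≤ j.castSucc.castSucc), α i).val
        (α j.castSucc.succ).val) := by
    intro η
    rw [jacobiProduct, map_prod]
    exact Finset.prod_congr rfl fun j _ => s10_jacobi hl _ _
  generalize (∏ j : Fin n, s10_poly k l
        (∑ i ∈ univ.filter (fun i => i ≤ j.castSucc.castSucc), α i).val
        (α j.castSucc.succ).val) = P at hP
  have hr := s10_root hχ hg
  have hr' := s10_root hχ' hg
  have hm : minpoly ℤ (χ (g : k)) = minpoly ℤ (χ' (g : k)) := by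
    rw [← Polynomial.cyclotomic_eq_minpoly hr hN, ← Polynomial.cyclotomic_eq_minpoly hr' hN]
  have hz : Polynomial.aeval (χ (g : k)) (P - Polynomial.C c) = 0 := by
    rw [map_sub, ← hP, h, Polynomial.aeval_C]
    simp
  have hd := minpoly.isIntegrallyClosed_dvd (hr.isIntegral hN) hz
  rw [hm] at hd
  obtain ⟨Q, hQ⟩ := hd
  have hz' : Polynomial.aeval (χ' (g : k)) (P - Polynomial.C c) = 0 := by
    rw [hQ, map_mul, minpoly.aeval, zero_mul]
  rw [map_sub, ← hP, Polynomial.aeval_C, sub_eq_zero] at hz'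
  rw [hz']
  simp

/-- Hint: `(χ ^ t.val) ^ a.val = χ ^ (t * a).val` because `χ ^ N = 1`; sums: `Finset.mul_sum`. -/
theorem jacobiProduct_pow {k : Type} [Field k] [Fintype k] {N n : ℕ} [NeZero N]
    {χ : MulChar k ℂ} (hχ : orderOf χ = N) (α : Fin (n + 2) → ZMod N) (t : ZMod N) :
    jacobiProduct (χ ^ t.val) α = jacobiProduct χ (fun i => t * α i) := by
  have key : ∀ a : ZMod N, (χ ^ t.val) ^ a.val = χ ^ (t * a).val := by
    intro a
    rw [← pow_mul, ZMod.val_mul]
    conv_lhs => rw [← pow_mod_orderOf, hχ]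
  rw [jacobiProduct, jacobiProduct]
  refine Finset.prod_congr rfl fun j _ => ?_
  rw [key, key, Finset.mul_sum]

lemma IsMinimalZeroSum.smul {N l : ℕ} {α : Fin l → ZMod N} (h : IsMinimalZeroSum α)
    (t : (ZMod N)ˣ) : IsMinimalZeroSum (fun i => (t : ZMod N) * α i) := by
  refine ⟨?_, fun I hI hI' => ?_⟩
  · rw [← Finset.mul_sum, h.1, mul_zero]
  · rw [← Finset.mul_sum]
    intro h0
    exact h.2 I hI hI' ((Units.mul_right_eq_zero t).mp h0)

lemma IsMinimalZeroSum.ne_zero {N l : ℕ} {α : Fin l → ZMod N} (h : IsMinimalZeroSum α)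
    (hl : 2 ≤ l) (i : Fin l) : α i ≠ 0 := by
  have h1 := h.2 {i} (Finset.singleton_nonempty i) (fun h2 => by
    have h3 := congrArg Finset.card h2
    rw [Finset.card_singleton, Finset.card_univ, Fintype.card_fin] at h3
    omega)
  rwa [Finset.sum_singleton] at h1

end UnrG
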