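import Pool.Agent.Lib.MP_859dd5_ag.Mg.G009
import Pool.Agent.Lib.MP_859dd5_ag.K.I2

/-!
# Products of Jacobi sums and Gauss sums
-/

namespace UnrG

open Finset

private lemma s9_pow_mul {k : Type} [Field k] [Fintype k] {N : ℕ} [NeZero N] {χ : MulChar k ℂ}
    (hχ : orderOf χ = N) (a b : ZMod N) : χ ^ a.val * χ ^ b.val = χ ^ (a + b).val := by
  rw [← pow_add, ZMod.val_add]
  conv_lhs => rw [← pow_mod_orderOf, hχ]

private lemma s9_ne_one {k : Type} [Field k] [Fintype k] {N : ℕ} [NeZero N] {χ : MulChar k ℂ}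
    (hχ : orderOf χ = N) {a : ZMod N} (ha : a ≠ 0) : χ ^ a.val ≠ 1 := by
  intro h
  have h1 := orderOf_dvd_of_pow_eq_one h
  rw [hχ] at h1
  have h2 := Nat.eq_zero_of_dvd_of_lt h1 (ZMod.val_lt a)
  exact ha ((ZMod.val_eq_zero a).mp h2)

private lemma s9_inv {k : Type} [Field k] [Fintype k] {N : ℕ} [NeZero N] {χ : MulChar k ℂ}
    (hχ : orderOf χ = N) {a b : ZMod N} (hab : a + b = 0) : (χ ^ a.val)⁻¹ = χ ^ b.val := by
  rw [inv_eq_iff_mul_eq_one, s9_pow_mul hχ, hab, ZMod.val_zero, pow_zero]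

private lemma s9_chain (V : ValuationSubring ℂ) {k : Type} [Field k] [Fintype k]
    {ψ : AddChar k ℂ} {N : ℕ} [NeZero N] {χ : MulChar k ℂ} (hχ : orderOf χ = N)
    (β T : ℕ → ZMod N) (h0 : T 0 = β 0) (hT : ∀ m, T (m + 1) = T m + β (m + 1)) :
    ∀ m, (∀ j, j ≤ m → T j ≠ 0) →
      (∏ j ∈ range m, V.valuation (jacobiSum (χ ^ (T j).val) (χ ^ (β (j + 1)).val))) *
        V.valuation (gaussSum (χ ^ (T m).val) ψ) =
      ∏ i ∈ range (m + 1), V.valuation (gaussSum (χ ^ (β i).val) ψ) := by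
  intro m
  induction m with
  | zero =>
    intro _
    simp [h0]
  | succ m ih =>
    intro h
    have ih' := ih fun j hj => h j (hj.trans (Nat.le_succ m))
    rw [Finset.prod_range_succ, Finset.prod_range_succ _ (m + 1), ← ih']
    have h1 : χ ^ (T m).val * χ ^ (β (m + 1)).val ≠ 1 := by
      rw [s9_pow_mul hχ, ← hT]
      exact s9_ne_one hχ (h (m + 1) le_rfl)
    have h2 := jacobiSum_mul_nontrivial h1 ψ
    rw [s9_pow_mul hχ, ← hT] at h2
    have h3 := congrArg V.valuation h2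
    rw [map_mul, map_mul] at h3
    calc _ = (∏ j ∈ range m, V.valuation (jacobiSum (χ ^ (T j).val) (χ ^ (β (j + 1)).val))) *
          (V.valuation (gaussSum (χ ^ (T (m + 1)).val) ψ) *
            V.valuation (jacobiSum (χ ^ (T m).val) (χ ^ (β (m + 1)).val))) := by
            rw [mul_assoc]
            congr 1
            exact mul_comm _ _
      _ = _ := by
            rw [h3, mul_assoc]

/-- Proof: let `T j = ∑_{i ≤ j} α i`, so `T j ≠ 0` for `j ≤ n` (`h`) and `T n = -α (n + 1)`. Then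
`g (χ ^ T (j+1)) * J (χ ^ T j, χ ^ α (j+1)) = g (χ ^ T j) g (χ ^ α (j + 1))`
(`jacobiSum_mul_nontrivial`; `χ ^ a.val * χ ^ b.val = χ ^ (a + b).val` as `χ ^ N = 1`), so
`(∏ J) * g (χ ^ T n) = ∏_{i ≤ n} g (χ ^ α i)` (the Gauss sums do not vanish, or by induction with
products), and `g (χ ^ α (n+1)) g (χ ^ T n)` has valuation `v q` (`v_gaussSum_mul_inv`). -/
theorem v_jacobiProduct (V : ValuationSubring ℂ) {k : Type} [Field k] [Fintype k]
    {ψ : AddChar k ℂ} (hψ : ψ.IsPrimitive) {N n : ℕ} (hN : 2 ≤ N) (χ : MulChar k ℂ)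
    (hχ : orderOf χ = N) {α : Fin (n + 2) → ZMod N} (h : IsMinimalZeroSum α) :
    V.valuation (jacobiProduct χ α) * V.valuation (Fintype.card k : ℂ) =
      ∏ i, V.valuation (gaussSum (χ ^ (α i).val) ψ) := by
  haveI : NeZero N := ⟨by omega⟩
  let β : ℕ → ZMod N := fun i => if hi : i < n + 2 then α ⟨i, hi⟩ else 0
  let T : ℕ → ZMod N := fun m => ∑ i ∈ range (m + 1), β i
  have hβ : ∀ i : Fin (n + 2), β i.val = α i := fun i => by
    simp only [β, i.isLt, dif_pos, Fin.eta]
  have hTs : ∀ j : Fin (n + 2), ∑ i ∈ univ.filter (fun i => i ≤ j), α i = T j.val := by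
    intro j
    rw [Finset.sum_filter]
    have h1 : ∀ i : Fin (n + 2), (if i ≤ j then α i else 0) =
        (fun m : ℕ => if m ≤ j.val then β m else 0) i.val := by
      intro i
      simp only [hβ, Fin.le_def]
    rw [Finset.sum_congr rfl fun i _ => h1 i,
      Fin.sum_univ_eq_sum_range (fun m : ℕ => if m ≤ j.val then β m else 0) (n + 2),
      ← Finset.sum_filter]
    refine Finset.sum_congr ?_ fun _ _ => rfl
    ext m
    simp only [Finset.mem_filter, Finset.mem_range]
    have := j.isLt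
    omega
  have hTne : ∀ j, j ≤ n → T j ≠ 0 := by
    intro j hj
    have hj' : j < n + 2 := by omega
    have h1 := hTs ⟨j, hj'⟩
    have h2 : T j = ∑ i ∈ univ.filter (fun i : Fin (n + 2) => i ≤ ⟨j, hj'⟩), α i := h1.symm
    rw [h2]
    refine h.2 _ ⟨⟨j, hj'⟩, ?_⟩ ?_
    · simp
    · intro h3
      have h4 : (Fin.last (n + 1)) ∈ univ.filter (fun i : Fin (n + 2) => i ≤ ⟨j, hj'⟩) := by
        rw [h3]
        exact Finset.mem_univ _
      rw [Finset.mem_filter] at h4
      have h5 := h4.2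
      rw [Fin.le_def] at h5
      simp only [Fin.val_last] at h5
      omega
  have hTotal : T n + β (n + 1) = 0 := by
    have h1 : T n + β (n + 1) = ∑ i ∈ range (n + 2), β i := by
      simp only [T]
      rw [Finset.sum_range_succ _ (n + 1)]
    rw [h1, ← Fin.sum_univ_eq_sum_range, Finset.sum_congr rfl fun i _ => hβ i]
    exact h.1
  have hchain := s9_chain V (ψ := ψ) hχ β T (by simp [T]) (fun m => by
    simp only [T]
    rw [Finset.sum_range_succ _ (m + 1)]) n hTne
  have hJ : V.valuation (jacobiProduct χ α) =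
      ∏ j ∈ range n, V.valuation (jacobiSum (χ ^ (T j).val) (χ ^ (β (j + 1)).val)) := by
    rw [jacobiProduct, map_prod, ← Fin.prod_univ_eq_prod_range
      (fun j => V.valuation (jacobiSum (χ ^ (T j).val) (χ ^ (β (j + 1)).val))) n]
    refine Finset.prod_congr rfl fun j _ => ?_
    rw [hTs, ← hβ]
    rfl
  have hinv : V.valuation (gaussSum (χ ^ (T n).val) ψ) *
      V.valuation (gaussSum (χ ^ (β (n + 1)).val) ψ) = V.valuation (Fintype.card k : ℂ) := by
    rw [← s9_inv hχ hTotal]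
    exact v_gaussSum_mul_inv V (s9_ne_one hχ (hTne n le_rfl)) hψ
  rw [hJ, ← hinv, ← mul_assoc, hchain, ← Finset.prod_range_succ
    (fun i => V.valuation (gaussSum (χ ^ (β i).val) ψ)) (n + 1),
    ← Fin.prod_univ_eq_prod_range (fun i => V.valuation (gaussSum (χ ^ (β i).val) ψ)) (n + 2)]
  refine Finset.prod_congr rfl fun i _ => ?_
  rw [hβ]

end UnrG
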