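import Pool.Agent.Lib.MP_859dd5_ag.Mg.G071
import Pool.Agent.Lib.MP_859dd5_ag.PF.S9
import Pool.Agent.Lib.MP_859dd5_ag.PF.S10

/-!
# The Stickelberger relation for Tate characters
-/

namespace UnrG

open Finset

/-- Proof: `N ∣ q - 1` (`orderOf χ` divides the order of the unit group), `q = p ^ e = M N + 1`. Take `V`
from `exists_valuation`, `φ`, `ω` from `exists_residue_hom`, `exists_teichmuller`, and `χ₀ = ω⁻¹ ^ M`, of
order `N` (`orderOf_teichmuller`). For a unit `t` the character `χ₀ ^ t.val` has order `N`, so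
`jacobiProduct χ₀ (t α) = q ^ 2` (`jacobiProduct_eq_of_eq`, `jacobiProduct_pow`). By
`v_jacobiProduct` (for `t α`, which is minimal) `v q ^ 3 = ∏ v (g (χ₀ ^ (t α_i).val))`; raise to the
power `N` and use `stickelberger` (`χ₀ ^ c.val = ω⁻¹ ^ (M * c.val)`): `v p ^ (3 e N) = v p ^ (∑ valSum)`;
`0 < v p < 1`. -/
theorem sum_valSum (p : ℕ) [Fact p.Prime] {k : Type} [Field k] [Fintype k] [CharP k p] {N : ℕ}
    (hN : 2 ≤ N) {e : ℕ} (hcard : Fintype.card k = p ^ e) {α : Fin 6 → ZMod N}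
    (h : IsMinimalZeroSum α) (χ : MulChar k ℂ) (hχ : orderOf χ = N)
    (hJ : jacobiProduct (n := 4) χ α = (Fintype.card k : ℂ) ^ 2) (t : (ZMod N)ˣ) :
    ∑ i, valSum p e ((t : ZMod N) * α i) = 3 * e * N := by
  classical
  letI : Algebra (ZMod p) k := ZMod.algebra k p
  haveI : NeZero N := ⟨by omega⟩
  have hq1 : 1 < Fintype.card k := Fintype.one_lt_card
  have hdvd : N ∣ Fintype.card k - 1 := by
    rw [← hχ, ← Fintype.card_units]
    exact orderOf_dvd_of_pow_eq_one χ.pow_card_eq_one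
  obtain ⟨M, hM'⟩ := hdvd
  have hM : Fintype.card k = M * N + 1 := by
    rw [mul_comm M N, ← hM']
    omega
  obtain ⟨V, hV⟩ := exists_valuation p
  obtain ⟨φ⟩ := exists_residue_hom V p hV k
  obtain ⟨ω, hω⟩ := exists_teichmuller V p hV k φ
  have hord : orderOf (ω⁻¹ ^ M) = N := orderOf_teichmuller V hω (by omega) hM
  -- the Jacobi product of the conjugate family
  have hJ' : jacobiProduct (n := 4) (ω⁻¹ ^ M) (fun i => (t : ZMod N) * α i) =
      (Fintype.card k : ℂ) ^ 2 := by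
    rw [← jacobiProduct_pow hord α (t : ZMod N)]
    have hord' : orderOf ((ω⁻¹ ^ M) ^ (t : ZMod N).val) = N := by
      rw [Nat.Coprime.orderOf_pow, hord]
      rw [hord]
      exact (ZMod.val_coe_unit_coprime t).symm
    have h1 := jacobiProduct_eq_of_eq (n := 4) (by omega : 0 < N) hχ hord' α
      ((Fintype.card k : ℤ) ^ 2) (by rw [hJ]; push_cast; rfl)
    rw [h1]
    push_cast
    rfl
  have h2 := v_jacobiProduct V (trChar_primitive p k) hN (ω⁻¹ ^ M) hord (h.smul t)
  rw [hJ'] at h2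
  -- raise to the power `N`
  have h3 : ∀ i : Fin 6, V.valuation (gaussSum ((ω⁻¹ ^ M) ^ ((t : ZMod N) * α i).val)
      (trChar p k)) ^ N = V.valuation (p : ℂ) ^ valSum p e ((t : ZMod N) * α i) := by
    intro i
    have hc : (t : ZMod N) * α i ≠ 0 := (h.smul t).ne_zero (by norm_num) i
    rw [← pow_mul]
    exact stickelberger V p hV k hω hcard hN (by rw [← hcard]; exact hM) hc
  have h4 := congrArg (fun x => x ^ N) h2
  rw [← Finset.prod_pow, Finset.prod_congr rfl fun i _ => h3 i, Finset.prod_pow_eq_pow_sum] at h4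
  have hvq : V.valuation (Fintype.card k : ℂ) = V.valuation (p : ℂ) ^ e := by
    rw [hcard]
    push_cast
    rw [map_pow]
  rw [map_pow, hvq, ← pow_mul, ← pow_add, ← pow_mul] at h4
  have hv0 : 0 < V.valuation (p : ℂ) := by
    rw [zero_lt_iff]
    exact (Valuation.ne_zero_iff _).2 (Nat.cast_ne_zero.2 (Fact.out : p.Prime).ne_zero)
  have h5 := pow_right_injective₀ hv0 hV.ne h4
  rw [← h5]
  ring

end UnrG
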