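import Pool.Agent.Lib.MP_859dd5_ag.Mg.G071
import Pool.Agent.Lib.MP_859dd5_ag.K.I2

/-!
# Symmetry implies twisted pairs
-/

namespace UnrG

open Finset

private def U2nu (p e : ℕ) {N l : ℕ} (α : Fin l → ZMod N) (i : Fin l) (a : ZMod N) : ℕ :=
  ((range e).filter fun j => (p : ZMod N) ^ j * α i = a).card

private theorem U2_sum {p e N l : ℕ} (α : Fin l → ZMod N) (a : ZMod N) :
    nuCount p e α a = ∑ i, U2nu p e α i a := by
  rw [nuCount, card_filter, sum_product]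
  refine sum_congr rfl fun i _ => ?_
  rw [U2nu, card_filter]

private theorem U2_shift {p e N l : ℕ} (hpe : (p : ZMod N) ^ e = 1) {α : Fin l → ZMod N}
    {i i' : Fin l} {k : ℕ} (hk : α i' = -(p : ZMod N) ^ k * α i) (a : ZMod N) :
    U2nu p e α i' (-a) = U2nu p e α i a := by
  have hper : Function.Periodic (fun j : ℕ => (p : ZMod N) ^ j * α i = a) e := by
    intro j
    simp only [pow_add, hpe, mul_one]
  have h1 := Nat.filter_Ico_card_eq_of_periodic 0 e _ hper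
  have h2 := Nat.filter_Ico_card_eq_of_periodic k e _ hper
  rw [zero_add, ← range_eq_Ico] at h1
  rw [U2nu, U2nu, h1, ← h2]
  refine card_bij (fun j _ => j + k) ?_ ?_ ?_
  · intro j hj
    rw [mem_filter, mem_range] at hj
    rw [mem_filter, mem_Ico]
    refine ⟨⟨by omega, by omega⟩, ?_⟩
    have h3 := hj.2
    rw [hk] at h3
    have h4 : (p : ZMod N) ^ (j + k) * α i = -((p : ZMod N) ^ j * (-(p : ZMod N) ^ k * α i)) := by
      rw [pow_add]
      ring
    rw [h4, h3, neg_neg]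
  · intro j1 _ j2 _ h3
    exact Nat.add_right_cancel h3
  · intro j hj
    rw [mem_filter, mem_Ico] at hj
    refine ⟨j - k, ?_, by omega⟩
    rw [mem_filter, mem_range]
    refine ⟨by omega, ?_⟩
    have h3 : (p : ZMod N) ^ j = (p : ZMod N) ^ (j - k) * (p : ZMod N) ^ k := by
      rw [← pow_add]
      congr 1
      omega
    rw [hk, ← hj.2, h3]
    ring

private theorem U2_step {p e N l : ℕ} [Fact N.Prime] (he : 0 < e) (hpe : (p : ZMod N) ^ e = 1)
    (hneg : ∀ j : ℕ, (p : ZMod N) ^ j ≠ -1) {α : Fin l → ZMod N} (h0 : ∀ i, α i ≠ 0)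
    (S : Finset (Fin l)) (h : ∀ a, ∑ i ∈ S, U2nu p e α i (-a) = ∑ i ∈ S, U2nu p e α i a)
    (i : Fin l) (hi : i ∈ S) :
    ∃ i' ∈ S, i' ≠ i ∧ (∃ k : ℕ, α i' = -(p : ZMod N) ^ k * α i) ∧
      ∀ a, ∑ x ∈ (S.erase i).erase i', U2nu p e α x (-a) =
        ∑ x ∈ (S.erase i).erase i', U2nu p e α x a := by
  have h1 : 0 < U2nu p e α i (α i) := by
    rw [U2nu, card_pos]
    exact ⟨0, by rw [mem_filter, mem_range]; exact ⟨he, by rw [pow_zero, one_mul]⟩⟩
  have h2 : 0 < ∑ x ∈ S, U2nu p e α x (-α i) := by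
    rw [h]
    exact h1.trans_le (single_le_sum (f := fun x => U2nu p e α x (α i))
      (fun x _ => Nat.zero_le _) hi)
  obtain ⟨i', hi', h3⟩ : ∃ x ∈ S, 0 < U2nu p e α x (-α i) := by
    by_contra hcon
    push Not at hcon
    have : ∑ x ∈ S, U2nu p e α x (-α i) = 0 :=
      sum_eq_zero fun x hx => Nat.le_zero.mp (hcon x hx)
    omega
  rw [U2nu, card_pos] at h3
  obtain ⟨j, hj⟩ := h3
  rw [mem_filter, mem_range] at hj
  have hne : i' ≠ i := by
    intro h4
    rw [h4] at hj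
    have h5 : ((p : ZMod N) ^ j + 1) * α i = 0 := by
      rw [add_mul, one_mul, hj.2, neg_add_cancel]
    exact hneg j (eq_neg_of_add_eq_zero_left ((mul_eq_zero.mp h5).resolve_right (h0 i)))
  have hk : α i' = -(p : ZMod N) ^ (e - j) * α i := by
    have h4 : (p : ZMod N) ^ (e - j) * (p : ZMod N) ^ j = 1 := by
      rw [← pow_add, ← hpe]
      congr 1
      omega
    calc α i' = ((p : ZMod N) ^ (e - j) * (p : ZMod N) ^ j) * α i' := by rw [h4, one_mul]
      _ = (p : ZMod N) ^ (e - j) * ((p : ZMod N) ^ j * α i') := by ring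
      _ = _ := by rw [hj.2]; ring
  refine ⟨i', hi', hne, ⟨_, hk⟩, fun a => ?_⟩
  have hi'2 : i' ∈ S.erase i := mem_erase.mpr ⟨hne, hi'⟩
  have e1 : ∀ b, ∑ x ∈ S, U2nu p e α x b =
      U2nu p e α i b + (U2nu p e α i' b + ∑ x ∈ (S.erase i).erase i', U2nu p e α x b) := by
    intro b
    rw [add_sum_erase _ (fun x => U2nu p e α x b) hi'2,
      add_sum_erase _ (fun x => U2nu p e α x b) hi]
  have e2 := h a
  rw [e1, e1] at e2
  have e3 : U2nu p e α i' (-a) = U2nu p e α i a := U2_shift hpe hk a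
  have e4 : U2nu p e α i' a = U2nu p e α i (-a) := by
    have := U2_shift hpe hk (-a)
    rwa [neg_neg] at this
  rw [e3, e4] at e2
  omega

/-- Proof: for a nonzero `b` let `n b = #{j < e : p ^ j α_i = b}` summed over a set `S` of indices
(start with `S = univ`). Claim: if `S` is nonempty and the counting function of `S` is even
(`ν_S (-a) = ν_S a`), then for `i ∈ S` there is `i' ∈ S`, `i' ≠ i`, with `α i' = -p ^ k α i` for some
`k`, and the counting function of `S \ {i, i'}` is again even. Indeed `ν_S (α i) > 0` (`j = 0`), so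
`ν_S (-α i) > 0`: `p ^ j α i' = -α i` with `j < e`, so `α i' = -p ^ (e - j) α i` (`p ^ e = 1`); `i' ≠ i`
because `-1` is not a power of `p` and `α i ≠ 0`. The counting functions of `{i}` and `{i'}` are
exchanged by `a ↦ -a` (multiplication by `p ^ k` permutes the cyclic orbits: `j ↦ p ^ j` has period
dividing `e`). Apply the claim twice. -/
theorem twistedPairs_of_nuCount {p e N l : ℕ} [Fact N.Prime] (hl : 4 ≤ l)
    (he : 0 < e) (hpe : (p : ZMod N) ^ e = 1) (hneg : ∀ j : ℕ, (p : ZMod N) ^ j ≠ -1)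
    {α : Fin l → ZMod N} (h0 : ∀ i, α i ≠ 0)
    (h : ∀ a, nuCount p e α (-a) = nuCount p e α a) : TwistedPairs p α := by
  have h1 : ∀ a, ∑ i ∈ univ, U2nu p e α i (-a) = ∑ i ∈ univ, U2nu p e α i a := fun a => by
    rw [← U2_sum, ← U2_sum, h]
  obtain ⟨i₁, -, hi₁, ⟨k₁, hk₁⟩, h2⟩ :=
    U2_step he hpe hneg h0 univ h1 (⟨0, by omega⟩ : Fin l) (mem_univ _)
  obtain ⟨i₀, hi₀⟩ : ∃ i₀ : Fin l, i₀ = ⟨0, by omega⟩ := ⟨_, rfl⟩
  rw [← hi₀] at hi₁ hk₁ h2
  have hcard : 0 < ((univ.erase i₀).erase i₁ : Finset (Fin l)).card := by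
    rw [card_erase_of_mem (mem_erase.mpr ⟨hi₁, mem_univ _⟩), card_erase_of_mem (mem_univ _),
      card_univ, Fintype.card_fin]
    omega
  obtain ⟨i₂, hi₂⟩ := card_pos.mp hcard
  obtain ⟨i₃, hi₃, hne, ⟨k₂, hk₂⟩, -⟩ := U2_step he hpe hneg h0 _ h2 i₂ hi₂
  rw [mem_erase, mem_erase] at hi₂ hi₃
  refine ⟨i₀, i₁, i₂, i₃, ?_, k₁, k₂, hk₁, hk₂⟩
  simp only [List.nodup_cons, List.mem_cons, List.not_mem_nil, or_false, not_or,
    List.nodup_nil, and_true, not_false_eq_true]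
  exact ⟨⟨hi₁.symm, hi₂.2.1.symm, hi₃.2.1.symm⟩, ⟨hi₂.1.symm, hi₃.1.symm⟩, hne.symm⟩

end UnrG
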